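import Pool.Agent.H93.WR.Pi
import Pool.Agent.H93.KR.Eqv

/-!
# The irreducible characters of a direct product
-/

set_option autoImplicit false
set_option linter.unusedSectionVars false
set_option linter.style.haveILetI false

open scoped Classical BigOperators

noncomputable section

namespace Pool.Agent.H93.WR

open Pool.Agent.Helper884.IC
open Pool.Agent.Q90.WR (irr_of_norm B_nat deg_pos DefZero numDefectZero_card defZero_iff fac_le)
open Pool.Agent.Y63.AWC (numDefectZero)

/-- the number of irreducible characters -/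
theorem card_Irr (H : Type) [Group H] [Fintype H] : (Irr H).card = Nat.card (ConjClasses H) := by
  have h3 := Pool.Agent.H93.KR.kk_eq H
  unfold Pool.Agent.H93.KR.kk at h3
  rw [Pool.Agent.K3h3.MK.wt_eq] at h3
  simp only [MonoidHom.one_apply, Finset.sum_const, nsmul_eq_mul, mul_one] at h3
  exact_mod_cast h3

/-- characters of representations -/
def IsChr {H : Type} [Group H] (f : H → ℂ) : Prop :=
  ∃ (V : Type) (_ : AddCommGroup V) (_ : Module ℂ V) (_ : FiniteDimensional ℂ V)
    (ρ : Representation ℂ H V), f = ρ.character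

theorem IsChr.mul {H : Type} [Group H] {f g : H → ℂ} (hf : IsChr f) (hg : IsChr g) :
    IsChr (fun x => f x * g x) := by
  obtain ⟨V, _, _, _, ρ, rfl⟩ := hf
  obtain ⟨W, _, _, _, σ, rfl⟩ := hg
  refine ⟨TensorProduct ℂ V W, inferInstance, inferInstance, inferInstance,
    Representation.tprod ρ σ, ?_⟩
  rw [Representation.char_tensor]
  rfl

theorem isChr_one {H : Type} [Group H] : IsChr (fun _ : H => (1 : ℂ)) :=
  ⟨ℂ, inferInstance, inferInstance, inferInstance, oneRep (1 : H →* ℂˣ), by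
    funext x
    rw [oneRep_char]
    simp⟩

theorem IsChr.comp {H K : Type} [Group H] [Group K] {f : K → ℂ} (hf : IsChr f) (e : H →* K) :
    IsChr (fun x => f (e x)) := by
  obtain ⟨V, _, _, _, ρ, rfl⟩ := hf
  exact ⟨V, inferInstance, inferInstance, inferInstance, ρ.comp e, rfl⟩

theorem irr_isChr {H : Type} [Group H] {f : H → ℂ} (hf : IsIrrChar f) : IsChr f := by
  obtain ⟨V, _, _, _, ρ, -, h⟩ := hf
  exact ⟨V, inferInstance, inferInstance, inferInstance, ρ, h⟩

variable {ι : Type} [Fintype ι] {G : ι → Type} [∀ i, Group (G i)]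

/-- the product of functions -/
def box (θ : ∀ i, G i → ℂ) (x : ∀ i, G i) : ℂ := ∏ i, θ i (x i)

theorem box_chr {θ : ∀ i, G i → ℂ} (h : ∀ i, IsIrrChar (θ i)) : IsChr (box θ) := by
  have key : ∀ s : Finset ι, IsChr (fun x : ∀ i, G i => ∏ i ∈ s, θ i (x i)) := by
    intro s
    induction s using Finset.induction_on with
    | empty => simpa using isChr_one
    | insert a s ha ih =>
      have h1 : (fun x : ∀ i, G i => ∏ i ∈ insert a s, θ i (x i)) =
          fun x => θ a (Pi.evalMonoidHom G a x) * ∏ i ∈ s, θ i (x i) := by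
        funext x
        rw [Finset.prod_insert ha]
        rfl
      rw [h1]
      exact ((irr_isChr (h a)).comp _).mul ih
  exact key Finset.univ

variable [∀ i, Fintype (G i)]

theorem B_box (θ ψ : ∀ i, G i → ℂ) : B (box θ) (box ψ) = ∏ i, B (θ i) (ψ i) := by
  unfold B box
  rw [Nat.card_pi, Finset.prod_mul_distrib, Finset.prod_univ_sum, Fintype.piFinset_univ]
  push_cast
  rw [Finset.prod_inv_distrib]
  congr 1
  refine Finset.sum_congr rfl fun x _ => ?_
  rw [← Finset.prod_mul_distrib]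
  rfl

theorem box_class {θ : ∀ i, G i → ℂ} (h : ∀ i, IsClass (θ i)) : IsClass (box θ) := by
  intro x y
  exact Finset.prod_congr rfl fun i _ => h i (x i) (y i)

theorem box_irr {θ : ∀ i, G i → ℂ} (h : ∀ i, IsIrrChar (θ i)) : IsIrrChar (box θ) := by
  refine irr_of_norm (box_class fun i => (h i).isClass) ?_ ?_ ?_
  · intro χ hχ
    obtain ⟨V, _, _, _, ρ, h1⟩ := box_chr h
    obtain ⟨W, _, _, _, σ, _, rfl⟩ := hχ
    obtain ⟨n, hn⟩ := B_nat ρ σ
    exact ⟨n, by rw [h1, hn, Int.cast_natCast]⟩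
  · rw [B_box]
    exact Finset.prod_eq_one fun i _ => by rw [B_irr (h i) (h i), if_pos rfl]
  · choose d _ hd using fun i => deg_pos (h i)
    refine ⟨∏ i, d i, ?_⟩
    change ∏ i, θ i 1 = _
    push_cast
    exact Finset.prod_congr rfl fun i _ => hd i

theorem box_inj {θ ψ : ∀ i, G i → ℂ} (h : ∀ i, IsIrrChar (θ i)) (h' : ∀ i, IsIrrChar (ψ i))
    (he : box θ = box ψ) : θ = ψ := by
  have e := B_box θ ψ
  rw [← he, B_irr (box_irr h) (box_irr h), if_pos rfl] at e
  funext i
  by_contra hcon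
  rw [Finset.prod_eq_zero (Finset.mem_univ i)
    (by rw [B_irr (h i) (h' i), if_neg hcon])] at e
  exact one_ne_zero e

theorem card_Irr_pi : (Irr (∀ i, G i)).card = ∏ i, (Irr (G i)).card := by
  have h1 := card_comm_eq_card_conjClasses_mul_card (∀ i, G i)
  have h2 : Nat.card {q : (∀ i, G i) × (∀ i, G i) // Commute q.1 q.2} =
      Nat.card (∀ i, {q : G i × G i // Commute q.1 q.2}) := by
    refine Nat.card_congr
      { toFun := fun q i => ⟨(q.1.1 i, q.1.2 i), congrFun q.2 i⟩
        invFun := fun r => ⟨(fun i => (r i).1.1, fun i => (r i).1.2), funext fun i => (r i).2⟩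
        left_inv := fun _ => rfl
        right_inv := fun _ => rfl }
  rw [h2, Nat.card_pi, Nat.card_pi (β := G), ← card_Irr,
    Finset.prod_congr rfl fun i _ => card_comm_eq_card_conjClasses_mul_card (G i),
    Finset.prod_mul_distrib] at h1
  have h3 : 0 < ∏ i, Nat.card (G i) := Finset.prod_pos fun i _ => Nat.card_pos
  have h4 := Nat.eq_of_mul_eq_mul_right h3 h1
  rw [← h4]
  exact Finset.prod_congr rfl fun i _ => (card_Irr (G i)).symm

theorem Irr_pi : Irr (∀ i, G i) = (Fintype.piFinset fun i => Irr (G i)).image box := by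
  symm
  refine Finset.eq_of_subset_of_card_le ?_ ?_
  · intro χ hχ
    obtain ⟨θ, hθ, rfl⟩ := Finset.mem_image.mp hχ
    rw [Fintype.mem_piFinset] at hθ
    exact mem_Irr.mpr (box_irr fun i => mem_Irr.mp (hθ i))
  · rw [card_Irr_pi, Finset.card_image_of_injOn, Fintype.card_piFinset]
    intro θ hθ ψ hψ he
    rw [Finset.mem_coe, Fintype.mem_piFinset] at hθ hψ
    exact box_inj (fun i => mem_Irr.mp (hθ i)) (fun i => mem_Irr.mp (hψ i)) he

theorem box_cover {χ : (∀ i, G i) → ℂ} (h : IsIrrChar χ) :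
    ∃ θ : ∀ i, G i → ℂ, (∀ i, IsIrrChar (θ i)) ∧ box θ = χ := by
  have h1 := mem_Irr.mpr h
  rw [Irr_pi] at h1
  obtain ⟨θ, hθ, rfl⟩ := Finset.mem_image.mp h1
  rw [Fintype.mem_piFinset] at hθ
  exact ⟨θ, fun i => mem_Irr.mp (hθ i), rfl⟩

variable {p : ℕ} [hp : Fact p.Prime]

theorem defZero_box {θ : ∀ i, G i → ℂ} (h : ∀ i, IsIrrChar (θ i)) :
    DefZero p (box θ) ↔ ∀ i, DefZero p (θ i) := by
  choose d hd0 hd using fun i => deg_pos (h i)
  have h1 : box θ 1 = ((∏ i, d i : ℕ) : ℂ) := by
    change ∏ i, θ i 1 = _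
    push_cast
    exact Finset.prod_congr rfl fun i _ => hd i
  have h2 : ∀ i, (d i).factorization p ≤ (Nat.card (G i)).factorization p :=
    fun i => fac_le (h i) (hd i)
  rw [defZero_iff h1, Nat.card_pi, Nat.factorization_prod fun i _ => (hd0 i).ne',
    Nat.factorization_prod fun i _ => Nat.card_pos.ne', Finsupp.finsetSum_apply,
    Finsupp.finsetSum_apply, Finset.sum_eq_sum_iff_of_le fun i _ => h2 i]
  exact ⟨fun h3 i => (defZero_iff (hd i)).mpr (h3 i (Finset.mem_univ i)),
    fun h3 i _ => (defZero_iff (hd i)).mp (h3 i)⟩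

/-- the number of characters of defect zero is multiplicative -/
theorem numDefectZero_pi : numDefectZero p (∀ i, G i) = ∏ i, numDefectZero p (G i) := by
  rw [numDefectZero_card]
  have h1 : (Irr (∀ i, G i)).filter (DefZero p) =
      (Fintype.piFinset fun i => (Irr (G i)).filter (DefZero p)).image box := by
    ext χ
    rw [Finset.mem_filter, Finset.mem_image, mem_Irr]
    constructor
    · rintro ⟨h1, h2⟩
      obtain ⟨θ, hθ, rfl⟩ := box_cover h1
      refine ⟨θ, ?_, rfl⟩
      rw [Fintype.mem_piFinset]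
      exact fun i => Finset.mem_filter.mpr ⟨mem_Irr.mpr (hθ i), (defZero_box hθ).mp h2 i⟩
    · rintro ⟨θ, hθ, rfl⟩
      rw [Fintype.mem_piFinset] at hθ
      have h3 : ∀ i, IsIrrChar (θ i) := fun i => mem_Irr.mp (Finset.mem_filter.mp (hθ i)).1
      exact ⟨box_irr h3, (defZero_box h3).mpr fun i => (Finset.mem_filter.mp (hθ i)).2⟩
  rw [h1, Finset.card_image_of_injOn, Fintype.card_piFinset]
  · exact Finset.prod_congr rfl fun i _ => (numDefectZero_card p (G i)).symm
  · intro θ hθ ψ hψ he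
    rw [Finset.mem_coe, Fintype.mem_piFinset] at hθ hψ
    exact box_inj (fun i => mem_Irr.mp (Finset.mem_filter.mp (hθ i)).1)
      (fun i => mem_Irr.mp (Finset.mem_filter.mp (hψ i)).1) he

end Pool.Agent.H93.WR
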