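import Pool.Agent.H93.WR.Box

/-!
# Wreath products with cyclic groups: the sum over the chains
-/

set_option autoImplicit false
set_option linter.unusedSectionVars false
set_option linter.style.haveILetI false

open scoped Classical BigOperators

noncomputable section

namespace Pool.Agent.H93.WR

open Pool.Agent.Y63.KR
open Pool.Agent.Q90.WR (inv mem_inv bot_mem W_of_weight exists_weight kap altK card_mul_altK
  conjSub_bot)

/-- the cyclic shift of the coordinates -/
def shift (l : ℕ) (G : Type) [Group G] : Multiplicative (ZMod l) →* MulAut (ZMod l → G) where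
  toFun c :=
    { toFun := fun x i => x (i - c.toAdd)
      invFun := fun x i => x (i + c.toAdd)
      left_inv := fun x => by
        funext i
        simp
      right_inv := fun x => by
        funext i
        simp
      map_mul' := fun _ _ => rfl }
  map_one' := by
    ext x i
    simp
  map_mul' c d := by
    ext x i
    change x (i - (c * d).toAdd) = x (i - c.toAdd - d.toAdd)
    rw [toAdd_mul, sub_sub]

theorem shift_apply {l : ℕ} {G : Type} [Group G] (c : Multiplicative (ZMod l)) (x : ZMod l → G)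
    (i : ZMod l) : shift l G c x i = x (i - c.toAdd) := rfl

/-- the wreath product of `G` with the cyclic group of order `l` -/
abbrev Wrc (l : ℕ) (G : Type) [Group G] : Type :=
  (ZMod l → G) ⋊[shift l G] Multiplicative (ZMod l)

variable {l : ℕ} {G : Type} [Group G]

/-- the projection on the cyclic group -/
abbrev pr (l : ℕ) (G : Type) [Group G] : Wrc l G →* Multiplicative (ZMod l) :=
  SemidirectProduct.rightHom

/-- the embedding of the base group -/
abbrev em (l : ℕ) (G : Type) [Group G] : (ZMod l → G) →* Wrc l G := SemidirectProduct.inl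

theorem em_inj : Function.Injective (em l G) := SemidirectProduct.inl_injective

theorem em_range : (em l G).range = (pr l G).ker := SemidirectProduct.range_inl_eq_ker_rightHom

/-- a product subgroup of the base group -/
def pw (R : ZMod l → Subgroup G) : Subgroup (Wrc l G) :=
  (Subgroup.pi Set.univ R).map (em l G)

/-- the projections of the part in the base group -/
def pj (i : ZMod l) (P : Subgroup (Wrc l G)) : Subgroup G :=
  (P.comap (em l G)).map (Pi.evalMonoidHom (fun _ : ZMod l => G) i)

theorem mem_pw {R : ZMod l → Subgroup G} {x : ZMod l → G} :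
    em l G x ∈ pw R ↔ ∀ i, x i ∈ R i := by
  unfold pw
  constructor
  · rintro ⟨y, hy, h⟩ i
    have h1 := em_inj h
    subst h1
    exact (Subgroup.mem_pi _).mp hy i trivial
  · intro h
    exact ⟨x, (Subgroup.mem_pi _).mpr fun i _ => h i, rfl⟩

theorem pw_le (R : ZMod l → Subgroup G) : pw R ≤ (pr l G).ker := by
  rw [← em_range]
  exact Subgroup.map_le_range _ _

theorem mem_pj {i : ZMod l} {P : Subgroup (Wrc l G)} {g : G} :
    g ∈ pj i P ↔ ∃ x : ZMod l → G, em l G x ∈ P ∧ x i = g := Iff.rfl

theorem le_pw {P : Subgroup (Wrc l G)} (hP : P ≤ (pr l G).ker) {R : ZMod l → Subgroup G} :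
    P ≤ pw R ↔ ∀ i, pj i P ≤ R i := by
  constructor
  · rintro h i g ⟨x, hx, rfl⟩
    exact mem_pw.mp (h hx) i
  · intro h y hy
    have h1 : y ∈ (em l G).range := by
      rw [em_range]
      exact hP hy
    obtain ⟨x, rfl⟩ := h1
    exact mem_pw.mpr fun i => h i ⟨x, hy, rfl⟩

theorem pj_pw (i : ZMod l) (R : ZMod l → Subgroup G) : pj i (pw R) = R i := by
  ext g
  rw [mem_pj]
  constructor
  · rintro ⟨x, hx, rfl⟩
    exact mem_pw.mp hx i
  · intro hg
    refine ⟨fun j => if j = i then g else 1, mem_pw.mpr fun j => ?_, if_pos rfl⟩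
    by_cases h : j = i
    · subst h
      rwa [if_pos rfl]
    · rw [if_neg h]
      exact one_mem _

/-- conjugation of the elements of the base group -/
theorem conj_em (a : ZMod l → G) (c : Multiplicative (ZMod l)) (x : ZMod l → G) :
    (⟨a, c⟩ : Wrc l G) * em l G x * (⟨a, c⟩ : Wrc l G)⁻¹ =
      em l G (fun i => a i * x (i - c.toAdd) * (a i)⁻¹) := by
  refine SemidirectProduct.ext ?_ ?_
  · funext i
    simp [shift_apply, mul_assoc]
  · simp

theorem conj_em' (a : ZMod l → G) (c : Multiplicative (ZMod l)) (x : ZMod l → G) :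
    (⟨a, c⟩ : Wrc l G)⁻¹ * em l G x * (⟨a, c⟩ : Wrc l G) =
      em l G (fun i => (a (i + c.toAdd))⁻¹ * x (i + c.toAdd) * a (i + c.toAdd)) := by
  have h := conj_em a c (fun i => (a (i + c.toAdd))⁻¹ * x (i + c.toAdd) * a (i + c.toAdd))
  have h1 : (fun i => a i * ((a (i - c.toAdd + c.toAdd))⁻¹ * x (i - c.toAdd + c.toAdd) *
      a (i - c.toAdd + c.toAdd)) * (a i)⁻¹) = x := by
    funext i
    rw [sub_add_cancel]
    group
  rw [h1] at h
  rw [← h]
  group

theorem conj_pw (a : ZMod l → G) (c : Multiplicative (ZMod l)) (R : ZMod l → Subgroup G) :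
    conjSub (⟨a, c⟩ : Wrc l G) (pw R) = pw (fun i => conjSub (a i) (R (i - c.toAdd))) := by
  ext y
  rw [mem_conjSub]
  constructor
  · intro h
    have h1 : (⟨a, c⟩ : Wrc l G)⁻¹ * y * ⟨a, c⟩ ∈ (em l G).range := by
      rw [em_range]
      exact pw_le R h
    obtain ⟨x, hx⟩ := h1
    have h2 : y = em l G (fun i => a i * x (i - c.toAdd) * (a i)⁻¹) := by
      rw [← conj_em, hx]
      group
    rw [h2]
    rw [← hx, mem_pw] at h
    exact mem_pw.mpr fun i => conj_mem_conjSub (h (i - c.toAdd))
  · intro h
    have h1 : y ∈ (em l G).range := by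
      rw [em_range]
      exact pw_le _ h
    obtain ⟨x, rfl⟩ := h1
    rw [mem_pw] at h
    rw [conj_em', mem_pw]
    intro i
    have h2 := mem_conjSub.mp (h (i + c.toAdd))
    rw [add_sub_cancel_right] at h2
    exact h2

theorem conj_pj (a : ZMod l → G) (c : Multiplicative (ZMod l)) (P : Subgroup (Wrc l G))
    (i : ZMod l) : pj i (conjSub (⟨a, c⟩ : Wrc l G) P) = conjSub (a i) (pj (i - c.toAdd) P) := by
  ext g
  rw [mem_pj, mem_conjSub, mem_pj]
  constructor
  · rintro ⟨x, hx, rfl⟩
    rw [mem_conjSub, conj_em'] at hx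
    refine ⟨_, hx, ?_⟩
    simp only [sub_add_cancel]
  · rintro ⟨x, hx, hxg⟩
    refine ⟨fun i => a i * x (i - c.toAdd) * (a i)⁻¹, ?_, ?_⟩
    · rw [← conj_em]
      exact conj_mem_conjSub hx
    · change a i * x (i - c.toAdd) * (a i)⁻¹ = g
      rw [hxg]
      group

theorem pj_bot (i : ZMod l) : pj i (⊥ : Subgroup (Wrc l G)) = ⊥ := by
  rw [eq_bot_iff]
  rintro g ⟨x, hx, rfl⟩
  have h1 : em l G x = 1 := hx
  have h2 : x = 1 := em_inj (h1.trans (map_one _).symm)
  rw [h2]
  exact one_mem _

theorem pw_bot : pw (fun _ : ZMod l => (⊥ : Subgroup G)) = ⊥ := by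
  rw [eq_bot_iff]
  rintro _ ⟨x, hx, rfl⟩
  have h2 : x = 1 := funext fun i => Subgroup.mem_bot.mp (Subgroup.mem_pi _ |>.mp hx i trivial)
  rw [h2, map_one]
  exact one_mem _

variable {p : ℕ}

theorem isPGroup_pw [NeZero l] {R : ZMod l → Subgroup G} (h : ∀ i, IsPGroup p (R i)) :
    IsPGroup p (pw R) := by
  unfold pw
  exact (isPGroup_prd h).map _

theorem isPGroup_pj {P : Subgroup (Wrc l G)} (h : IsPGroup p P) (i : ZMod l) :
    IsPGroup p (pj i P) := (h.comap_of_injective _ em_inj).map _

/-! ### Sequences -/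

/-- the partial products `a_n ⋯ a_1` -/
def U (a : ZMod l → G) : ℕ → G
  | 0 => 1
  | n + 1 => a ((n + 1 : ℕ) : ZMod l) * U a n

theorem U_zero (a : ZMod l → G) : U a 0 = 1 := rfl

theorem U_succ (a : ZMod l → G) (n : ℕ) : U a (n + 1) = a ((n + 1 : ℕ) : ZMod l) * U a n := rfl

section seq

variable {Z : Type} {act : G → Z → Z} (h1 : ∀ z, act 1 z = z)
  (hm : ∀ g h z, act (g * h) z = act g (act h z))

include h1 hm

theorem seq_eq {a : ZMod l → G} {z : ZMod l → Z} (hz : ∀ i, z i = act (a i) (z (i - 1)))
    (n : ℕ) : z (n : ZMod l) = act (U a n) (z 0) := by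
  induction n with
  | zero => rw [Nat.cast_zero, U_zero, h1]
  | succ n ih =>
    rw [hz, U_succ, hm, ← ih]
    congr 2
    push_cast
    ring

theorem seq_last {a : ZMod l → G} {z : ZMod l → Z} (hz : ∀ i, z i = act (a i) (z (i - 1))) :
    act (U a l) (z 0) = z 0 := by
  rw [← seq_eq h1 hm hz l, ZMod.natCast_self]

theorem seq_mk [NeZero l] {a : ZMod l → G} {z₀ : Z} (h : act (U a l) z₀ = z₀) (i : ZMod l) :
    act (U a i.val) z₀ = act (a i) (act (U a (i - 1).val) z₀) := by
  set n := (i - 1).val with hn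
  have hi : i = ((n + 1 : ℕ) : ZMod l) := by
    rw [hn]
    push_cast
    rw [ZMod.natCast_zmod_val]
    ring
  have hlt : n < l := ZMod.val_lt _
  rw [← hm]
  by_cases hc : n + 1 < l
  · have h2 : i.val = n + 1 := by
      rw [hi, ZMod.val_natCast, Nat.mod_eq_of_lt hc]
    rw [h2, U_succ, ← hi]
  · have h3 : n + 1 = l := by omega
    have h4 : i = 0 := by rw [hi, h3, ZMod.natCast_self]
    have h5 : a i * U a n = U a l := by
      have h6 : U a l = U a (n + 1) := congrArg (U a) h3.symm
      rw [h6, U_succ, ← hi]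
    rw [h5, h, h4, ZMod.val_zero, U_zero, h1]

end seq

/-- the generator of the cyclic group -/
def gen (l : ℕ) : Multiplicative (ZMod l) := Multiplicative.ofAdd 1

theorem comm_iff (x a : ZMod l → G) :
    em l G x * (⟨a, gen l⟩ : Wrc l G) = ⟨a, gen l⟩ * em l G x ↔
      ∀ i, x i = a i * x (i - 1) * (a i)⁻¹ := by
  have h := conj_em a (gen l) x
  constructor
  · intro h1
    have h2 : em l G x = em l G (fun i => a i * x (i - 1) * (a i)⁻¹) := by
      change em l G x = em l G (fun i => a i * x (i - (gen l).toAdd) * (a i)⁻¹)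
      rw [← h, ← h1]
      group
    intro i
    exact congrFun (em_inj h2) i
  · intro h1
    have h2 : x = fun i => a i * x (i - 1) * (a i)⁻¹ := funext h1
    have h3 : em l G (fun i => a i * x (i - (gen l).toAdd) * (a i)⁻¹) = em l G x :=
      congrArg _ h2.symm
    rw [h3, mul_inv_eq_iff_eq_mul] at h
    exact h.symm

/-- the sum over the chains normalised by a pair outside the base group -/
theorem W_shift [NeZero l] [Finite G] [hp : Fact p.Prime] (hpl : ¬ p ∣ l) {x a : ZMod l → G}
    (hx : ∀ i, x i = a i * x (i - 1) * (a i)⁻¹) :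
    W p ({em l G x, ⟨a, gen l⟩} : Set (Wrc l G)) = W p ({x 0, U a l} : Set G) := by
  haveI : Finite (Wrc l G) := Finite.of_equiv _ SemidirectProduct.equivProd.symm
  have hker : ∀ P : Subgroup (Wrc l G), IsPGroup p P → P ≤ (pr l G).ker := by
    intro P hP
    refine Pool.Agent.H93.KR.pgroup_le_ker _ ?_ hP
    rwa [Nat.card_congr Multiplicative.toAdd, Nat.card_zmod]
  obtain ⟨f, hf0, hf⟩ := exists_weight p ({x 0, U a l} : Set G)
  rw [W_of_weight (f := fun P => if P = pw (fun i => conjSub (U a i.val) (pj 0 P)) then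
    f (pj 0 P) else 0)]
  · simp only [pj_bot, conjSub_bot, pw_bot, if_true, hf0]
  · intro P hP
    have hP' := mem_inv.mp hP
    have hPj : ∀ Q : Subgroup (Wrc l G), Q ∈ inv p ({em l G x, ⟨a, gen l⟩} : Set (Wrc l G)) →
        ∀ i, pj i Q = conjSub (a i) (pj (i - 1) Q) := by
      intro Q hQ i
      rw [mem_inv] at hQ
      have e2 := hQ.2 ⟨a, gen l⟩ (by simp)
      have e3 := conj_pj a (gen l) Q i
      rw [e2] at e3
      exact e3
    have hPi : ∀ Q : Subgroup (Wrc l G), Q ∈ inv p ({em l G x, ⟨a, gen l⟩} : Set (Wrc l G)) →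
        pj 0 Q ∈ inv p ({x 0, U a l} : Set G) := by
      intro Q hQ
      have hQ' := mem_inv.mp hQ
      rw [mem_inv]
      refine ⟨isPGroup_pj hQ'.1 0, ?_⟩
      rintro z (rfl | rfl)
      · have e1 := hQ'.2 (em l G x) (by simp)
        have e3 := conj_pj x 1 Q 0
        have e4 : (⟨x, 1⟩ : Wrc l G) = em l G x := rfl
        rw [e4, e1, toAdd_one, sub_zero] at e3
        exact e3.symm
      · exact seq_last (act := conjSub) conjSub_one conjSub_mul (hPj Q hQ)
    rw [← Finset.sum_filter]
    have e : ∑ Q ∈ ((inv p ({em l G x, ⟨a, gen l⟩} : Set (Wrc l G))).filter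
        (P ≤ ·)).filter (fun Q => Q = pw (fun i => conjSub (U a i.val) (pj 0 Q))), f (pj 0 Q) =
        ∑ R ∈ (inv p ({x 0, U a l} : Set G)).filter (pj 0 P ≤ ·), f R := by
      refine Finset.sum_bij' (fun Q _ => pj 0 Q)
        (fun R _ => pw (fun i => conjSub (U a i.val) R)) ?_ ?_ ?_ ?_ ?_
      · intro Q hQ
        rw [Finset.mem_filter, Finset.mem_filter] at hQ
        obtain ⟨⟨a1, a2⟩, a3⟩ := hQ
        rw [Finset.mem_filter]
        exact ⟨hPi Q a1, Subgroup.map_mono (Subgroup.comap_mono a2)⟩
      · intro R hR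
        rw [Finset.mem_filter] at hR
        obtain ⟨a1, a2⟩ := hR
        rw [mem_inv] at a1
        have hU : conjSub (U a l) R = R := a1.2 (U a l) (by simp)
        have hx0 : conjSub (x 0) R = R := a1.2 (x 0) (by simp)
        have h0 : pj 0 (pw (fun i : ZMod l => conjSub (U a i.val) R)) = R := by
          rw [pj_pw, ZMod.val_zero, U_zero, conjSub_one]
        rw [Finset.mem_filter, Finset.mem_filter, mem_inv, le_pw (hker P hP'.1)]
        refine ⟨⟨⟨isPGroup_pw fun i => a1.1.map _, ?_⟩, ?_⟩, ?_⟩
        · rintro z (rfl | rfl)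
          · have e4 : (⟨x, 1⟩ : Wrc l G) = em l G x := rfl
            rw [← e4, conj_pw]
            congr 1
            funext i
            rw [toAdd_one, sub_zero, ← conjSub_mul]
            have h5 := seq_eq (act := fun g z : G => g * z * g⁻¹) (fun z => by group)
              (fun g h z => by group) hx i.val
            rw [ZMod.natCast_zmod_val] at h5
            have h6 : x i * U a i.val = U a i.val * x 0 := by
              rw [h5]
              group
            rw [h6, conjSub_mul, hx0]
          · rw [conj_pw]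
            congr 1
            funext i
            exact (seq_mk (act := conjSub) conjSub_one conjSub_mul hU i).symm
        · intro i
          have h5 := seq_eq (act := conjSub) conjSub_one conjSub_mul (hPj P hP) i.val
          rw [ZMod.natCast_zmod_val] at h5
          rw [h5]
          exact conjSub_le a2
        · rw [h0]
      · intro Q hQ
        rw [Finset.mem_filter] at hQ
        exact hQ.2.symm
      · intro R _
        rw [pj_pw, ZMod.val_zero, U_zero, conjSub_one]
      · intro Q _
        rfl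
    rw [e, hf _ (hPi P hP)]

end Pool.Agent.H93.WR
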