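import Pool.Agent.H93.WR.Sum

/-!
# Wreath products with cyclic groups of prime order: the formulas
-/

set_option autoImplicit false
set_option linter.unusedSectionVars false
set_option linter.style.haveILetI false

open scoped Classical BigOperators

noncomputable section

namespace Pool.Agent.H93.WR

open Pool.Agent.Y63.KR
open Pool.Agent.H93.KR
open Pool.Agent.Helper884.IC (IsIrrChar mem_Irr)
open Pool.Agent.Y63.AWC (numDefectZero)
open Pool.Agent.R674.Ce (AK DK AK_eq AK_congr DK_congr AK_formula DK_formula)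
open Pool.Agent.Q90.WR (kap altK card_mul_altK DefZero card_transport irr_comp_iff)

variable {l : ℕ} [NeZero l] {G : Type} [Group G] [Fintype G] {p : ℕ} [hp : Fact p.Prime]

theorem inv_iff (χ : (ZMod l → G) → ℂ) :
    (∀ g h : (pr l G).ker, (h : Wrc l G) = (⟨1, gen l⟩ : Wrc l G) * g * (⟨1, gen l⟩ : Wrc l G)⁻¹ →
      χ ((bas l G).symm h) = χ ((bas l G).symm g)) ↔
      ∀ x : ZMod l → G, χ (fun i => x (i - 1)) = χ x := by
  have key : ∀ x : ZMod l → G, (⟨1, gen l⟩ : Wrc l G) * em l G x * (⟨1, gen l⟩ : Wrc l G)⁻¹ =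
      em l G (fun i => x (i - 1)) := by
    intro x
    rw [conj_em]
    congr 1
    funext i
    simp [gen]
  constructor
  · intro h x
    have h1 := h (bas l G x) (bas l G (fun i => x (i - 1))) (by rw [bas_coe, bas_coe, key])
    rw [MulEquiv.symm_apply_apply, MulEquiv.symm_apply_apply] at h1
    exact h1
  · intro h g k hk
    obtain ⟨x, rfl⟩ := (bas l G).surjective g
    obtain ⟨y, rfl⟩ := (bas l G).surjective k
    rw [bas_coe, bas_coe, key] at hk
    have h1 : y = fun i => x (i - 1) := em_inj hk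
    rw [MulEquiv.symm_apply_apply, MulEquiv.symm_apply_apply, h1]
    exact h x

theorem box_shift (θ : ZMod l → G → ℂ) (x : ZMod l → G) :
    box (G := fun _ => G) θ (fun i => x (i - 1)) =
      box (G := fun _ => G) (fun i => θ (i + 1)) x := by
  unfold box
  rw [← Equiv.prod_comp (Equiv.addRight (1 : ZMod l))]
  refine Finset.prod_congr rfl fun i _ => ?_
  simp

/-- the invariant characters of defect zero of the base group -/
theorem zf_gen : zf (pr l G) p 1 (gen l) = numDefectZero p G := by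
  haveI : Finite (Wrc l G) := finite_wrc
  have h0 : zf (pr l G) p 1 (gen l) = invDZ p (pr l G).ker (⟨1, gen l⟩ : Wrc l G) :=
    zf_inv (p := p) (pr l G) (⟨1, gen l⟩ : Wrc l G)
  rw [h0]
  unfold invDZ
  have h1 := card_transport (bas l G).symm (fun χ : (pr l G).ker → ℂ =>
    (∃ n : ℕ, χ 1 = (n : ℂ) ∧ n.factorization p = (Nat.card (pr l G).ker).factorization p) ∧
    ∀ g h : (pr l G).ker, (h : Wrc l G) =
      (⟨1, gen l⟩ : Wrc l G) * g * (⟨1, gen l⟩ : Wrc l G)⁻¹ → χ h = χ g)
  refine h1.trans ?_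
  have hdz : ∀ χ : (ZMod l → G) → ℂ, (∃ n : ℕ, χ ((bas l G).symm 1) = (n : ℂ) ∧
      n.factorization p = (Nat.card (pr l G).ker).factorization p) ↔ DefZero p χ := by
    intro χ
    rw [map_one, card_base]
    rfl
  symm
  refine Nat.card_congr (Equiv.ofBijective (fun θ : {θ : G → ℂ // IsIrrChar θ ∧ DefZero p θ} =>
    (⟨box (G := fun _ : ZMod l => G) (fun _ => θ.1), box_irr fun _ => θ.2.1,
      (hdz _).mpr ((defZero_box fun _ => θ.2.1).mpr fun _ => θ.2.2),
      (inv_iff _).mpr fun x => box_shift _ x⟩ : {χ : (ZMod l → G) → ℂ // IsIrrChar χ ∧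
        (∃ n : ℕ, χ ((bas l G).symm 1) = (n : ℂ) ∧
          n.factorization p = (Nat.card (pr l G).ker).factorization p) ∧
        ∀ g h : (pr l G).ker, (h : Wrc l G) =
          (⟨1, gen l⟩ : Wrc l G) * g * (⟨1, gen l⟩ : Wrc l G)⁻¹ →
          χ ((bas l G).symm h) = χ ((bas l G).symm g)})) ⟨?_, ?_⟩)
  · intro θ ψ h
    have h2 := congrArg Subtype.val h
    have h3 := box_inj (G := fun _ : ZMod l => G) (fun _ => θ.2.1) (fun _ => ψ.2.1) h2
    exact Subtype.ext (congrFun h3 0)
  · rintro ⟨χ, h2, h3, h4⟩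
    obtain ⟨θ, hθ, rfl⟩ := box_cover (G := fun _ : ZMod l => G) h2
    have h5 : ∀ x : ZMod l → G, box (G := fun _ => G) (fun i => θ (i + 1)) x =
        box (G := fun _ => G) θ x := fun x => by
      rw [← box_shift]
      exact (inv_iff _).mp h4 x
    have h6 := box_inj (G := fun _ : ZMod l => G) (fun i => hθ (i + 1)) hθ (funext h5)
    have h7 : ∀ n : ℕ, θ (n : ZMod l) = θ 0 := by
      intro n
      induction n with
      | zero => rw [Nat.cast_zero]
      | succ n ih =>
        have h8 : θ ((n : ZMod l) + 1) = θ (n : ZMod l) := congrFun h6 (n : ZMod l)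
        rw [← ih, ← h8]
        push_cast
        rfl
    have h8 : θ = fun _ => θ 0 := by
      funext i
      rw [← ZMod.natCast_zmod_val i]
      exact h7 _
    have h9 := (hdz _).mp h3
    rw [defZero_box hθ] at h9
    refine ⟨⟨θ 0, hθ 0, h9 0⟩, Subtype.ext ?_⟩
    change box (G := fun _ : ZMod l => G) (fun _ => θ 0) = box (G := fun _ => G) θ
    rw [← h8]

/-! ### Sums over the pairs of elements of the cyclic group -/

section

variable {q : ℕ} [hq : Fact q.Prime]

theorem sum_bot {A : Type} [Group A] [Fintype A] (f : A → A → ℚ) :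
    (∑ s : A, ∑ t : A, if s ∈ (⊥ : Subgroup A) ∧ t ∈ (⊥ : Subgroup A) then f s t else 0) =
      f 1 1 := by
  rw [Finset.sum_eq_single 1, Finset.sum_eq_single 1]
  · rw [if_pos ⟨Subgroup.one_mem _, Subgroup.one_mem _⟩]
  · intro t _ ht
    rw [if_neg]
    exact fun h => ht (Subgroup.mem_bot.mp h.2)
  · intro h
    exact absurd (Finset.mem_univ _) h
  · intro s _ hs
    refine Finset.sum_eq_zero fun t _ => if_neg fun h => hs (Subgroup.mem_bot.mp h.1)
  · intro h
    exact absurd (Finset.mem_univ _) h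

theorem gen_pow (n : ℕ) : gen q ^ n = Multiplicative.ofAdd (n : ZMod q) := by
  unfold gen
  rw [← ofAdd_nsmul, nsmul_one]

theorem orderOf_gen : orderOf (gen q) = q := by
  refine orderOf_eq_prime ?_ ?_
  · rw [gen_pow, ZMod.natCast_self]
    rfl
  · intro h
    have h1 : (1 : ZMod q) = 0 := h
    exact one_ne_zero h1

theorem sum_top (f : Multiplicative (ZMod q) → Multiplicative (ZMod q) → ℚ)
    (h1 : ∀ a b : ℕ, f (gen q ^ a) (gen q ^ b) = f 1 (gen q ^ Nat.gcd a b))
    (h2 : ∀ k : ℕ, k.Coprime (orderOf (gen q)) → f 1 (gen q ^ k) = f 1 (gen q)) :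
    (∑ s, ∑ t, f s t) = f 1 1 + ((q : ℚ) ^ 2 - 1) * f 1 (gen q) := by
  have key : ∀ s t : Multiplicative (ZMod q), f s t =
      f 1 (gen q) + if s = 1 ∧ t = 1 then f 1 1 - f 1 (gen q) else 0 := by
    intro s t
    have hs : s = gen q ^ (s.toAdd).val := by
      rw [gen_pow, ZMod.natCast_zmod_val]
      rfl
    have ht : t = gen q ^ (t.toAdd).val := by
      rw [gen_pow, ZMod.natCast_zmod_val]
      rfl
    by_cases hc : s = 1 ∧ t = 1
    · rw [if_pos hc, hc.1, hc.2]
      ring
    · rw [if_neg hc, add_zero, hs, ht, h1]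
      apply h2
      rw [orderOf_gen, Nat.coprime_comm, Nat.Prime.coprime_iff_not_dvd hq.out]
      intro h
      apply hc
      have h3 := (Nat.dvd_gcd_iff.mp h)
      have h4 : ∀ z : ZMod q, q ∣ z.val → z = 0 := by
        intro z hz
        have h5 := Nat.eq_zero_of_dvd_of_lt hz (ZMod.val_lt z)
        exact (ZMod.val_eq_zero z).mp h5
      exact ⟨h4 _ h3.1, h4 _ h3.2⟩
  have h3 : (∑ s, ∑ t, f s t) = ∑ s : Multiplicative (ZMod q), ∑ t : Multiplicative (ZMod q),
      (f 1 (gen q) + if s = 1 ∧ t = 1 then f 1 1 - f 1 (gen q) else 0) :=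
    Finset.sum_congr rfl fun s _ => Finset.sum_congr rfl fun t _ => key s t
  have h4 : Fintype.card (Multiplicative (ZMod q)) = q := by
    rw [Fintype.card_multiplicative, ZMod.card]
  have h5 := sum_bot (fun s t : Multiplicative (ZMod q) => f 1 1 - f 1 (gen q))
  simp only [Subgroup.mem_bot] at h5
  rw [h3]
  simp_rw [Finset.sum_add_distrib]
  rw [h5]
  simp only [Finset.sum_const, Finset.card_univ, h4, nsmul_eq_mul]
  ring

end

end Pool.Agent.H93.WR
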