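import Pool.Agent.H93.WR.Res

/-!
# The growth of the error term
-/

set_option autoImplicit false
set_option linter.unusedSectionVars false
set_option linter.style.haveILetI false

open scoped Classical BigOperators

noncomputable section

namespace Pool.Agent.H93.WR

open Pool.Agent.Y63.KR
open Pool.Agent.Y63.AWC (numDefectZero)
open Pool.Agent.Q90.WR (altK)

theorem low1 {x y : ℤ} {n : ℕ} (hy : 0 ≤ y) (hxy : y < x) (h2 : 2 ≤ x) :
    (2 : ℤ) ^ n ≤ x ^ (n + 1) - y ^ (n + 1) := by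
  have h1 : y ^ n ≤ x ^ n := pow_le_pow_left₀ hy hxy.le n
  have h3 : (2 : ℤ) ^ n ≤ x ^ n := pow_le_pow_left₀ (by norm_num) h2 n
  have h4 : 0 ≤ y ^ n := pow_nonneg hy n
  have h5 : y * y ^ n ≤ (x - 1) * x ^ n :=
    mul_le_mul (by omega) h1 h4 (by omega)
  have h6 : x ^ (n + 1) - y ^ (n + 1) = x * x ^ n - y * y ^ n := by ring
  rw [h6]
  have h7 : (x - 1) * x ^ n = x * x ^ n - x ^ n := by ring
  linarith

theorem low2 {x y : ℤ} {n : ℕ} (hn : Even n) (hxy : y < x) (h2 : 2 ≤ |x| ∨ 2 ≤ |y|) :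
    (2 : ℤ) ^ n ≤ x ^ (n + 1) - y ^ (n + 1) := by
  have hodd : Odd (n + 1) := hn.add_one
  rcases le_or_gt 0 y with hy | hy
  · have hx : 0 < x := lt_of_le_of_lt hy hxy
    refine low1 hy hxy ?_
    rw [abs_of_pos hx, abs_of_nonneg hy] at h2
    omega
  · rcases le_or_gt 0 x with hx | hx
    · -- `y < 0 ≤ x`
      have e1 : x ^ (n + 1) - y ^ (n + 1) = |x| ^ (n + 1) + |y| ^ (n + 1) := by
        rw [abs_of_nonneg hx, abs_of_neg hy, hodd.neg_pow]
        ring
      rw [e1]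
      have e2 : (2 : ℤ) ^ n ≤ 2 ^ (n + 1) := pow_le_pow_right₀ (by norm_num) (by omega)
      have e3 : (0 : ℤ) ≤ |x| ^ (n + 1) := pow_nonneg (abs_nonneg x) _
      have e4 : (0 : ℤ) ≤ |y| ^ (n + 1) := pow_nonneg (abs_nonneg y) _
      rcases h2 with h | h
      · have := pow_le_pow_left₀ (by norm_num : (0 : ℤ) ≤ 2) h (n + 1)
        linarith
      · have := pow_le_pow_left₀ (by norm_num : (0 : ℤ) ≤ 2) h (n + 1)
        linarith
    · have h3 := low1 (x := -y) (y := -x) (n := n) (by omega) (by omega) (by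
        rw [abs_of_neg hx, abs_of_neg hy] at h2
        omega)
      rw [hodd.neg_pow, hodd.neg_pow] at h3
      linarith

theorem low3 {x y : ℤ} {n : ℕ} (hn : Even n) (hxy : x ≠ y) (h2 : 2 ≤ |x| ∨ 2 ≤ |y|) :
    (2 : ℤ) ^ n ≤ |x ^ (n + 1) - y ^ (n + 1)| := by
  rcases lt_or_gt_of_ne hxy with h | h
  · have h3 := low2 hn h h2.symm
    rw [abs_sub_comm]
    exact h3.trans (le_abs_self _)
  · exact (low2 hn h h2).trans (le_abs_self _)

variable {p : ℕ} [hp : Fact p.Prime]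

/-- enlarging the values -/
theorem enlarge {q : ℕ} [hq : Fact q.Prime] (hq2 : q ≠ 2) {z A z' A' : ℤ}
    (hne : z ≠ A) (h1 : (q : ℤ) * z' = z ^ q + ((q : ℤ) ^ 2 - 1) * z)
    (h2 : (q : ℤ) * A' = A ^ q + ((q : ℤ) ^ 2 - 1) * A) (hz : |z| ≤ 1) (hA : |A| ≤ 1) :
    z' ≠ A' ∧ (2 ≤ |z'| ∨ 2 ≤ |A'|) := by
  have h0 : (q : ℤ) ≠ 0 := by exact_mod_cast hq.out.ne_zero
  have hodd : Odd q := hq.out.odd_of_ne_two hq2
  have h3 : (3 : ℤ) ≤ q := by
    have := hq.out.two_le
    have : 3 ≤ q := by omega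
    exact_mod_cast this
  have key : ∀ x x' : ℤ, |x| ≤ 1 → (q : ℤ) * x' = x ^ q + ((q : ℤ) ^ 2 - 1) * x → x' = q * x := by
    intro x x' hx h
    rw [abs_le] at hx
    have h4 : x = -1 ∨ x = 0 ∨ x = 1 := by omega
    apply mul_left_cancel₀ h0
    rw [h]
    rcases h4 with rfl | rfl | rfl
    · rw [hodd.neg_one_pow]
      ring
    · rw [zero_pow hq.out.ne_zero]
      ring
    · rw [one_pow]
      ring
  rw [key z z' hz h1, key A A' hA h2]
  refine ⟨fun h => hne (mul_left_cancel₀ h0 h), ?_⟩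
  rw [abs_le] at hz hA
  have h5 : z ≠ 0 ∨ A ≠ 0 := by omega
  rcases h5 with h5 | h5
  · left
    rw [abs_mul, abs_of_pos (by omega : (0 : ℤ) < q)]
    have h6 : 1 ≤ |z| := Int.one_le_abs h5
    nlinarith
  · right
    rw [abs_mul, abs_of_pos (by omega : (0 : ℤ) < q)]
    have h6 : 1 ≤ |A| := Int.one_le_abs h5
    nlinarith

/-- a class closed under direct powers and wreath products -/
structure Clp (q : ℕ) (X : ∀ (G : Type) [Group G], Prop) : Prop where
  pow : ∀ (G : Type) [Group G] [Finite G] (n : ℕ), 0 < n → X G → X (Fin n → G)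
  wreath : ∀ (G : Type) [Group G] [Finite G], X G → X (Wrc q G)

/-- a group with large values -/
theorem exists_large {q : ℕ} [hq : Fact q.Prime] (hqp : p ≠ q) (hq2 : q ≠ 2)
    {X : ∀ (G : Type) [Group G], Prop} (hX : Clp q X) (G : Type) [Group G] [Finite G] (hG : X G)
    (hne : (numDefectZero p G : ℤ) ≠ altK p G) :
    ∃ (H : Type) (_ : Group H) (_ : Finite H), X H ∧ (numDefectZero p H : ℤ) ≠ altK p H ∧
      (2 ≤ |(numDefectZero p H : ℤ)| ∨ 2 ≤ |altK p H|) := by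
  haveI := Fintype.ofFinite G
  by_cases h : 2 ≤ |(numDefectZero p G : ℤ)| ∨ 2 ≤ |altK p G|
  · exact ⟨G, inferInstance, inferInstance, hG, hne, h⟩
  · rw [not_or, not_le, not_le] at h
    have h1 := enlarge hq2 hne (num_wrc (G := G) hqp) (altK_wrc (G := G) hqp)
      (by omega) (by omega)
    exact ⟨Wrc q G, inferInstance, finite_wrc, hX.wreath G hG, h1.1, h1.2⟩

/-- exponential growth -/
theorem growth {q : ℕ} [hq : Fact q.Prime] (hqp : p ≠ q) (hq2 : q ≠ 2)
    {X : ∀ (G : Type) [Group G], Prop} (hX : Clp q X) (G : Type) [Group G] [Finite G] (hG : X G)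
    (hne : (numDefectZero p G : ℤ) ≠ altK p G) :
    ∃ N : ℕ, 1 < N ∧ ∀ j : ℕ, ∃ (H : Type) (_ : Group H) (_ : Finite H), X H ∧
      Nat.card H = N ^ (2 * j + 1) ∧
      (2 : ℤ) ^ (2 * j) ≤ |(numDefectZero p H : ℤ) - altK p H| := by
  obtain ⟨H, _, _, h1, h2, h3⟩ := exists_large hqp hq2 hX G hG hne
  haveI := Fintype.ofFinite H
  refine ⟨Nat.card H, ?_, fun j => ⟨Fin (2 * j + 1) → H, inferInstance, inferInstance,
    hX.pow H _ (by omega) h1, ?_, ?_⟩⟩
  · by_contra hc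
    have h4 : Nat.card H = 1 := by
      have : 0 < Nat.card H := Nat.card_pos
      omega
    have h5 : ¬ p ∣ Nat.card H := by
      rw [h4]
      exact hp.out.not_dvd_one
    apply h2
    rw [num_coprime h5, altK_coprime h5]
  · rw [Nat.card_pi, Finset.prod_const, Finset.card_univ, Fintype.card_fin]
  · rw [numDefectZero_pi, altK_pi, Finset.prod_const, Finset.prod_const, Finset.card_univ,
      Fintype.card_fin]
    push_cast
    exact low3 (even_two_mul j) h2 h3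

/-- the bound contradicts exponential growth -/
theorem no_bound {N : ℕ} (hN : 1 < N) (C : ℝ) : ∃ j : ℕ,
    C * ((N ^ (2 * j + 1) : ℕ) : ℝ) ^ (Real.log 2 / (2 * Real.log N)) < (2 : ℝ) ^ (2 * j) := by
  have hN0 : (0 : ℝ) < N := by
    have : 0 < N := by omega
    exact_mod_cast this
  have hlog : 0 < Real.log N := Real.log_pos (by exact_mod_cast hN)
  have h1 : ∀ j : ℕ, ((N ^ (2 * j + 1) : ℕ) : ℝ) ^ (Real.log 2 / (2 * Real.log N)) =
      2 ^ j * Real.sqrt 2 := by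
    intro j
    push_cast
    rw [← Real.rpow_natCast, ← Real.rpow_mul hN0.le, Real.rpow_def_of_pos hN0]
    have h2 : Real.log N * (((2 * j + 1 : ℕ) : ℝ) * (Real.log 2 / (2 * Real.log N))) =
        Real.log 2 * ((j : ℝ) + 1 / 2) := by
      push_cast
      field_simp
    rw [h2, ← Real.rpow_def_of_pos (by norm_num), Real.rpow_add (by norm_num),
      Real.rpow_natCast, Real.sqrt_eq_rpow]
  obtain ⟨j, hj⟩ := pow_unbounded_of_one_lt (C * Real.sqrt 2) (by norm_num : (1 : ℝ) < 2)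
  refine ⟨j, ?_⟩
  rw [h1]
  have h3 : (0 : ℝ) < 2 ^ j := by positivity
  have h4 : (2 : ℝ) ^ (2 * j) = 2 ^ j * 2 ^ j := by rw [two_mul, pow_add]
  rw [h4]
  have h5 : C * (2 ^ j * Real.sqrt 2) = 2 ^ j * (C * Real.sqrt 2) := by ring
  rw [h5]
  exact mul_lt_mul_of_pos_left hj h3

end Pool.Agent.H93.WR
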