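import Pool.Agent.Q90.WR.Krq

/-!
# The Knörr-Robinson sum of a direct product
-/

set_option autoImplicit false
set_option linter.unusedSectionVars false
set_option linter.style.haveILetI false

open scoped Classical BigOperators

noncomputable section

namespace Pool.Agent.H93.WR

open Pool.Agent.Y63.KR
open Pool.Agent.Q90.WR (inv mem_inv bot_mem W_of_weight exists_weight kap altK card_mul_altK
  conjSub_bot)

variable {ι : Type} [Fintype ι] {G : ι → Type} [∀ i, Group (G i)]

/-- the product of subgroups -/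
def prd (R : ∀ i, Subgroup (G i)) : Subgroup (∀ i, G i) := Subgroup.pi Set.univ R

theorem mem_prd {R : ∀ i, Subgroup (G i)} {x : ∀ i, G i} : x ∈ prd R ↔ ∀ i, x i ∈ R i := by
  unfold prd
  rw [Subgroup.mem_pi]
  exact ⟨fun h i => h i trivial, fun h i _ => h i⟩

/-- the projection of a subgroup -/
def prj (i : ι) (P : Subgroup (∀ i, G i)) : Subgroup (G i) := P.map (Pi.evalMonoidHom G i)

theorem mem_prj {i : ι} {P : Subgroup (∀ i, G i)} {g : G i} :
    g ∈ prj i P ↔ ∃ x ∈ P, x i = g := Iff.rfl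

theorem le_prd {P : Subgroup (∀ i, G i)} {R : ∀ i, Subgroup (G i)} :
    P ≤ prd R ↔ ∀ i, prj i P ≤ R i := by
  constructor
  · rintro h i g ⟨x, hx, rfl⟩
    exact mem_prd.mp (h hx) i
  · intro h x hx
    exact mem_prd.mpr fun i => h i ⟨x, hx, rfl⟩

theorem prj_prd (i : ι) (R : ∀ i, Subgroup (G i)) : prj i (prd R) = R i := by
  ext g
  rw [mem_prj]
  constructor
  · rintro ⟨x, hx, rfl⟩
    exact mem_prd.mp hx i
  · intro hg
    refine ⟨Pi.mulSingle i g, mem_prd.mpr fun j => ?_, Pi.mulSingle_eq_same i g⟩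
    by_cases h : j = i
    · subst h
      rwa [Pi.mulSingle_eq_same]
    · rw [Pi.mulSingle_eq_of_ne h]
      exact one_mem _

theorem conj_prd (x : ∀ i, G i) (R : ∀ i, Subgroup (G i)) :
    conjSub x (prd R) = prd (fun i => conjSub (x i) (R i)) := by
  ext y
  rw [mem_conjSub, mem_prd, mem_prd]
  exact forall_congr' fun i => by rw [mem_conjSub]; rfl

theorem conj_prj (i : ι) (x : ∀ i, G i) (P : Subgroup (∀ i, G i)) :
    prj i (conjSub x P) = conjSub (x i) (prj i P) := by
  unfold prj conjSub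
  rw [Subgroup.map_map, Subgroup.map_map]
  congr 1

theorem prd_bot : prd (fun i => (⊥ : Subgroup (G i))) = ⊥ := by
  ext x
  rw [mem_prd, Subgroup.mem_bot]
  constructor
  · intro h
    exact funext fun i => Subgroup.mem_bot.mp (h i)
  · rintro rfl i
    exact one_mem _

theorem prj_bot (i : ι) : prj i (⊥ : Subgroup (∀ i, G i)) = ⊥ := Subgroup.map_bot _

variable {p : ℕ}

theorem isPGroup_prd {R : ∀ i, Subgroup (G i)} (h : ∀ i, IsPGroup p (R i)) :
    IsPGroup p (prd R) := by
  rintro ⟨x, hx⟩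
  have h1 : ∀ i, ∃ k : ℕ, x i ^ p ^ k = 1 := fun i => by
    obtain ⟨k, hk⟩ := h i ⟨x i, mem_prd.mp hx i⟩
    exact ⟨k, congrArg Subtype.val hk⟩
  choose k hk using h1
  refine ⟨∑ i, k i, Subtype.ext (funext fun i => ?_)⟩
  change x i ^ p ^ (∑ i, k i) = 1
  have h2 : k i ≤ ∑ i, k i := Finset.single_le_sum (fun _ _ => Nat.zero_le _) (Finset.mem_univ i)
  obtain ⟨c, hc⟩ := Nat.exists_eq_add_of_le h2
  rw [hc, pow_add, pow_mul, hk, one_pow]

theorem isPGroup_prj {P : Subgroup (∀ i, G i)} (h : IsPGroup p P) (i : ι) :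
    IsPGroup p (prj i P) := h.map _

variable [∀ i, Finite (G i)]

/-- the sum over the chains normalised by a pair of elements is multiplicative -/
theorem W_pi (x y : ∀ i, G i) :
    W p ({x, y} : Set (∀ i, G i)) = ∏ i, W p ({x i, y i} : Set (G i)) := by
  have h0 : ∀ i, ∃ f : Subgroup (G i) → ℤ, f ⊥ = W p ({x i, y i} : Set (G i)) ∧
      ∀ P ∈ inv p ({x i, y i} : Set (G i)),
        ∑ Q ∈ (inv p ({x i, y i} : Set (G i))).filter (P ≤ ·), f Q = 1 :=
    fun i => exists_weight p ({x i, y i} : Set (G i))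
  choose f hf0 hf using h0
  rw [W_of_weight (f := fun P => if P = prd (fun i => prj i P) then ∏ i, f i (prj i P) else 0)]
  · simp only [prj_bot, prd_bot, if_true, hf0]
  · intro P hP
    have hPi : ∀ Q : Subgroup (∀ i, G i), Q ∈ inv p ({x, y} : Set (∀ i, G i)) →
        ∀ i, prj i Q ∈ inv p ({x i, y i} : Set (G i)) := by
      intro Q hQ i
      rw [mem_inv] at hQ
      rw [mem_inv]
      refine ⟨isPGroup_prj hQ.1 i, ?_⟩
      rintro z (rfl | rfl)
      · rw [← conj_prj, hQ.2 x (by simp)]
      · rw [← conj_prj, hQ.2 y (by simp)]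
    rw [← Finset.sum_filter]
    have e : ∑ Q ∈ ((inv p ({x, y} : Set (∀ i, G i))).filter (P ≤ ·)).filter
        (fun Q => Q = prd (fun i => prj i Q)), ∏ i, f i (prj i Q) =
        ∑ R ∈ Fintype.piFinset (fun i => (inv p ({x i, y i} : Set (G i))).filter (prj i P ≤ ·)),
          ∏ i, f i (R i) := by
      refine Finset.sum_bij' (fun Q _ => fun i => prj i Q) (fun R _ => prd R) ?_ ?_ ?_ ?_ ?_
      · intro Q hQ
        rw [Finset.mem_filter, Finset.mem_filter] at hQ
        obtain ⟨⟨a1, a2⟩, a3⟩ := hQ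
        rw [Fintype.mem_piFinset]
        intro i
        rw [Finset.mem_filter]
        exact ⟨hPi Q a1 i, Subgroup.map_mono a2⟩
      · intro R hR
        rw [Fintype.mem_piFinset] at hR
        have a1 : ∀ i, IsPGroup p (R i) ∧ ∀ z ∈ ({x i, y i} : Set (G i)), conjSub z (R i) = R i :=
          fun i => mem_inv.mp (Finset.mem_filter.mp (hR i)).1
        have a2 : ∀ i, prj i P ≤ R i := fun i => (Finset.mem_filter.mp (hR i)).2
        rw [Finset.mem_filter, Finset.mem_filter, mem_inv]
        refine ⟨⟨⟨isPGroup_prd fun i => (a1 i).1, ?_⟩, le_prd.mpr a2⟩, ?_⟩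
        · rintro z (rfl | rfl)
          · rw [conj_prd]
            congr 1
            exact funext fun i => (a1 i).2 _ (by simp)
          · rw [conj_prd]
            congr 1
            exact funext fun i => (a1 i).2 _ (by simp)
        · simp only [prj_prd]
      · intro Q hQ
        rw [Finset.mem_filter] at hQ
        exact hQ.2.symm
      · intro R _
        exact funext fun i => prj_prd i R
      · intro Q _
        rfl
    rw [e, ← Finset.prod_univ_sum]
    exact Finset.prod_eq_one fun i _ => hf i _ (hPi P hP i)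

variable [∀ i, Fintype (G i)]

theorem ite_pi (x y : ∀ i, G i) (d : Decidable (x * y = y * x)) :
    @ite _ (x * y = y * x) d (W p ({x, y} : Set (∀ i, G i))) 0 =
      ∏ i, (if x i * y i = y i * x i then W p ({x i, y i} : Set (G i)) else 0) := by
  by_cases h : x * y = y * x
  · rw [if_pos h, W_pi]
    exact Finset.prod_congr rfl fun i _ => (if_pos (congrFun h i)).symm
  · rw [if_neg h]
    symm
    have h1 : ∃ i, ¬ x i * y i = y i * x i := by
      by_contra hc
      push Not at hc
      exact h (funext hc)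
    obtain ⟨i, hi⟩ := h1
    exact Finset.prod_eq_zero (Finset.mem_univ i) (if_neg hi)

theorem kap_pi : kap p (∀ i, G i) = ∏ i, kap p (G i) := by
  unfold kap
  refine (Finset.sum_congr rfl fun x _ => Finset.sum_congr rfl fun y _ => ite_pi x y _).trans ?_
  have h2 : ∀ x : ∀ i, G i, ∑ y : (∀ i, G i),
      ∏ i, (if x i * y i = y i * x i then W p ({x i, y i} : Set (G i)) else 0) =
      ∏ i, ∑ z : G i, (if x i * z = z * x i then W p ({x i, z} : Set (G i)) else 0) := by
    intro x
    rw [Finset.prod_univ_sum, Fintype.piFinset_univ]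
  refine (Finset.sum_congr rfl fun x _ => h2 x).trans ?_
  rw [Finset.prod_univ_sum, Fintype.piFinset_univ]

theorem altK_pi [Fact p.Prime] : altK p (∀ i, G i) = ∏ i, altK p (G i) := by
  have h1 := card_mul_altK (p := p) (G := ∀ i, G i)
  rw [kap_pi] at h1
  have h2 : ∏ i, kap p (G i) = (∏ i, (Nat.card (G i) : ℤ)) * ∏ i, altK p (G i) := by
    rw [← Finset.prod_mul_distrib]
    exact Finset.prod_congr rfl fun i _ => card_mul_altK.symm
  have h3 : (Nat.card (∀ i, G i) : ℤ) = ∏ i, (Nat.card (G i) : ℤ) := by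
    rw [Nat.card_pi]
    push_cast
    rfl
  rw [h2, h3] at h1
  refine mul_left_cancel₀ ?_ h1
  rw [Finset.prod_ne_zero_iff]
  intro i _
  exact_mod_cast Nat.card_pos.ne'

end Pool.Agent.H93.WR
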