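import Pool.Agent.H93.WR.Top

/-!
# The values of the error term modulo prime powers
-/

set_option autoImplicit false
set_option linter.unusedSectionVars false
set_option linter.style.haveILetI false

open scoped Classical BigOperators

noncomputable section

namespace Pool.Agent.H93.WR

open Pool.Agent.Y63.KR
open Pool.Agent.Y63.AWC (numDefectZero)
open Pool.Agent.Q90.WR (altK cs W_cs inv mem_inv kap card_mul_altK DefZero numDefectZero_card)

/-! ### Groups of order prime to `p` -/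

section coprime

variable {p : ℕ} [hp : Fact p.Prime] {N : Type} [Group N] [Fintype N]

theorem W_one (h : ¬ p ∣ Nat.card N) (K : Set N) : W p K = 1 := by
  rw [W_cs]
  have h1 : (inv p K).filter (⊥ < ·) = ∅ := by
    rw [Finset.filter_eq_empty_iff]
    intro P hP h2
    apply h2.ne'
    obtain ⟨n, hn⟩ := IsPGroup.iff_card.mp (mem_inv.mp hP).1
    rcases Nat.eq_zero_or_pos n with h3 | h3
    · rw [h3, pow_zero] at hn
      exact Subgroup.card_eq_one.mp hn
    · exact absurd ((dvd_pow_self p h3.ne').trans (hn ▸ Subgroup.card_subgroup_dvd_card P)) h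
  rw [h1, Pool.Agent.Q90.WR.cs_eq, Finset.sum_empty, sub_zero]

theorem altK_coprime (h : ¬ p ∣ Nat.card N) : altK p N = Nat.card (ConjClasses N) := by
  have h1 := card_mul_altK (p := p) (G := N)
  have h2 : kap p N = Nat.card (ConjClasses N) * Nat.card N := by
    have h3 := card_comm_eq_card_conjClasses_mul_card N
    rw [← Nat.cast_mul, ← h3]
    unfold kap
    simp_rw [W_one h]
    rw [Nat.card_eq_fintype_card, Fintype.card_subtype, Finset.card_filter, Nat.cast_sum,
      Fintype.sum_prod_type]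
    refine Finset.sum_congr rfl fun x _ => Finset.sum_congr rfl fun y _ => ?_
    by_cases hc : x * y = y * x
    · rw [if_pos hc, if_pos (show Commute x y from hc), Nat.cast_one]
    · rw [if_neg hc, if_neg (show ¬ Commute x y from hc), Nat.cast_zero]
  rw [h2, mul_comm] at h1
  exact mul_right_cancel₀ (by exact_mod_cast Nat.card_pos.ne') h1

theorem num_coprime (h : ¬ p ∣ Nat.card N) : numDefectZero p N = Nat.card (ConjClasses N) := by
  rw [numDefectZero_card, ← card_Irr]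
  congr 1
  rw [Finset.filter_eq_self]
  intro χ hχ
  obtain ⟨d, -, hd⟩ := Pool.Agent.Q90.WR.deg_pos (Pool.Agent.Helper884.IC.mem_Irr.mp hχ)
  refine ⟨d, hd, ?_⟩
  have h1 := Pool.Agent.Q90.WR.fac_le (p := p) (Pool.Agent.Helper884.IC.mem_Irr.mp hχ) hd
  rw [Nat.factorization_eq_zero_of_not_dvd h] at h1 ⊢
  omega

end coprime

/-- a family of two groups -/
def Fam (A B : Type) : Bool → Type
  | true => A
  | false => B

instance {A B : Type} [Group A] [Group B] : ∀ b, Group (Fam A B b)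
  | true => inferInstanceAs (Group A)
  | false => inferInstanceAs (Group B)

instance {A B : Type} [Fintype A] [Fintype B] : ∀ b, Fintype (Fam A B b)
  | true => inferInstanceAs (Fintype A)
  | false => inferInstanceAs (Fintype B)

/-- the direct product of two groups -/
def famEquiv (A B : Type) [Group A] [Group B] : (∀ b, Fam A B b) ≃* A × B where
  toFun f := (f true, f false)
  invFun x b := match b with
    | true => x.1
    | false => x.2
  left_inv f := by
    funext b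
    cases b <;> rfl
  right_inv _ := rfl
  map_mul' _ _ := rfl

theorem altK_congr {p : ℕ} {A B : Type} [Group A] [Finite A] [Group B] [Finite B] (e : A ≃* B) :
    altK p A = altK p B := by
  have h := Pool.Agent.R674.Ce.AK_congr (p := p) e
  rw [AK_altK, AK_altK, Nat.card_congr e.toEquiv] at h
  exact mul_left_cancel₀ (by exact_mod_cast Nat.card_pos.ne') h

variable {p : ℕ} [hp : Fact p.Prime]

theorem num_prod {A B : Type} [Group A] [Fintype A] [Group B] [Fintype B] :
    numDefectZero p (A × B) = numDefectZero p A * numDefectZero p B := by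
  rw [← Pool.Agent.Y63.AWC.numDefectZero_congr (famEquiv A B), numDefectZero_pi,
    Fintype.prod_bool]
  rfl

theorem altK_prod {A B : Type} [Group A] [Fintype A] [Group B] [Fintype B] :
    altK p (A × B) = altK p A * altK p B := by
  rw [← altK_congr (famEquiv A B), altK_pi, Fintype.prod_bool]
  rfl

theorem cyc_card (n : ℕ) : Nat.card (Multiplicative (ZMod n)) = n := by
  rw [Nat.card_congr Multiplicative.toAdd, Nat.card_zmod]

theorem cyc_classes (n : ℕ) : Nat.card (ConjClasses (Multiplicative (ZMod n))) = n := by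
  rw [← Nat.card_congr (ConjClasses.mkEquiv (α := Multiplicative (ZMod n))), cyc_card]

/-- `X` is closed under direct products with cyclic groups of order prime to `p` and under wreath
products with the cyclic group of order `q`. -/
structure Cls (p q : ℕ) (X : ∀ (G : Type) [Group G], Prop) : Prop where
  prod : ∀ (G : Type) [Group G] [Finite G] (n : ℕ), 0 < n → ¬ p ∣ n → X G →
    X (G × Multiplicative (ZMod n))
  wreath : ∀ (G : Type) [Group G] [Finite G], X G → X (Wrc q G)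

/-- the values of the pair `(z_p, A_p)` on the class `X` -/
def Rz (X : ∀ (G : Type) [Group G], Prop) (p : ℕ) (z A : ℤ) : Prop :=
  ∃ (G : Type) (_ : Group G) (_ : Fintype G), X G ∧ (numDefectZero p G : ℤ) = z ∧ altK p G = A

variable {X : ∀ (G : Type) [Group G], Prop} {q : ℕ} (hX : Cls p q X)

include hX

theorem Rz.smul {z A : ℤ} (h : Rz X p z A) {n : ℕ} (hn : n ≠ 0) (hpn : ¬ p ∣ n) :
    Rz X p (n * z) (n * A) := by
  obtain ⟨G, _, _, h0, h1, h2⟩ := h
  haveI : NeZero n := ⟨hn⟩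
  refine ⟨G × Multiplicative (ZMod n), inferInstance, inferInstance,
    hX.prod G n (Nat.pos_of_ne_zero hn) hpn h0, ?_, ?_⟩
  · rw [num_prod, num_coprime (N := Multiplicative (ZMod n)) (by rwa [cyc_card]), cyc_classes,
      ← h1]
    push_cast
    ring
  · rw [altK_prod, altK_coprime (N := Multiplicative (ZMod n)) (by rwa [cyc_card]), cyc_classes,
      ← h2]
    ring

/-- the wreath product with a group of prime order -/
theorem Rz.wr {z A : ℤ} (h : Rz X p z A) (hq : q.Prime) :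
    ∃ z' A' c : ℤ, Rz X p z' A' ∧ (c = (q : ℤ) ^ 2 - 1 ∨ c = -1) ∧ (q = p → c = -1) ∧
      (q ≠ p → c = (q : ℤ) ^ 2 - 1) ∧
      (q : ℤ) * z' = z ^ q + c * z ∧ (q : ℤ) * A' = A ^ q + c * A := by
  haveI : Fact q.Prime := ⟨hq⟩
  obtain ⟨G, _, _, h0, h1, h2⟩ := h
  haveI : Finite (Wrc q G) := finite_wrc
  haveI : Fintype (Wrc q G) := Fintype.ofFinite _
  by_cases hqp : q = p
  · subst hqp
    refine ⟨numDefectZero q (Wrc q G), altK q (Wrc q G), -1,
      ⟨Wrc q G, inferInstance, inferInstance, hX.wreath G h0, rfl, rfl⟩, Or.inr rfl, fun _ => rfl,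
      fun h => absurd rfl h, ?_, ?_⟩
    · rw [num_wrc_self, h1]
      ring
    · rw [altK_wrc_self, h2]
      ring
  · refine ⟨numDefectZero p (Wrc q G), altK p (Wrc q G), (q : ℤ) ^ 2 - 1,
      ⟨Wrc q G, inferInstance, inferInstance, hX.wreath G h0, rfl, rfl⟩, Or.inl rfl,
      fun h => absurd h hqp, fun _ => rfl, ?_, ?_⟩
    · rw [num_wrc (Ne.symm hqp), h1]
    · rw [altK_wrc (Ne.symm hqp), h2]

omit hX hp in
theorem pow_sub {q : ℕ} {z A : ℤ} (h : (q : ℤ) ∣ z - A) :
    ∃ M : ℤ, z ^ q - A ^ q = (z - A) * (q * M) := by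
  obtain ⟨M, hM⟩ := dvd_geom_sum₂_self h
  refine ⟨M, ?_⟩
  rw [← hM, mul_comm, (Commute.all z A).geom_sum₂_mul]

/-- lowering the valuation -/
theorem lower (hq : q.Prime) (v : ℕ) : ∀ z A : ℤ, Rz X p z A →
    (∃ u : ℤ, z - A = (q : ℤ) ^ v * u ∧ ¬ (q : ℤ) ∣ u) →
    ∃ z' A' : ℤ, Rz X p z' A' ∧ ¬ (q : ℤ) ∣ z' - A' := by
  have hqi : Prime (q : ℤ) := Nat.prime_iff_prime_int.mp hq
  induction v with
  | zero =>
    rintro z A h ⟨u, hu, hqu⟩
    rw [pow_zero, one_mul] at hu
    exact ⟨z, A, h, hu ▸ hqu⟩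
  | succ v ih =>
    rintro z A h ⟨u, hu, hqu⟩
    obtain ⟨z', A', c, h', hc, -, -, h1, h2⟩ := h.wr hX hq
    have hdvd : (q : ℤ) ∣ z - A := by
      rw [hu, pow_succ]
      exact ⟨(q : ℤ) ^ v * u, by ring⟩
    obtain ⟨M, hM⟩ := pow_sub hdvd
    refine ih z' A' h' ⟨u * (q * M + c), ?_, ?_⟩
    · have h0 : (q : ℤ) ≠ 0 := hqi.ne_zero
      apply mul_left_cancel₀ h0
      have h3 : (q : ℤ) * (z' - A') = (z - A) * (q * M + c) := by
        linear_combination h1 - h2 + hM
      rw [h3, hu]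
      ring
    · intro h4
      rcases hqi.dvd_or_dvd h4 with h5 | h5
      · exact hqu h5
      · have h6 : (q : ℤ) ∣ c := (dvd_add_right (dvd_mul_right _ _)).mp h5
        have h7 : (q : ℤ) ∣ 1 := by
          rcases hc with rfl | rfl
          · have h8 : (q : ℤ) ∣ (q : ℤ) ^ 2 := dvd_pow_self _ two_ne_zero
            have h9 := dvd_sub h8 h6
            have h10 : (q : ℤ) ^ 2 - ((q : ℤ) ^ 2 - 1) = 1 := by ring
            rwa [h10] at h9
          · rwa [dvd_neg] at h6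
        exact hqi.not_isUnit (isUnit_of_dvd_one h7)

theorem unit (hq : q.Prime) {z A : ℤ} (h : Rz X p z A) (hne : z ≠ A) :
    ∃ z' A' : ℤ, Rz X p z' A' ∧ ¬ (q : ℤ) ∣ z' - A' := by
  have hqi : Prime (q : ℤ) := Nat.prime_iff_prime_int.mp hq
  have h0 : z - A ≠ 0 := sub_ne_zero.mpr hne
  have h1 : FiniteMultiplicity (q : ℤ) (z - A) := Int.finiteMultiplicity_iff.mpr
    ⟨by rw [Int.natAbs_natCast]; exact hq.one_lt.ne', h0⟩
  obtain ⟨u, hu, hqu⟩ := h1.exists_eq_pow_mul_and_not_dvd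
  exact lower hX hq _ z A h ⟨u, hu, hqu⟩

/-- all residues modulo powers of a prime `q ≠ p` -/
theorem res_ne (hq : q.Prime) (hqp : q ≠ p) {z A : ℤ} (h : Rz X p z A)
    (hu : ¬ (q : ℤ) ∣ z - A) (k : ℕ) (a : ℤ) :
    ∃ z' A' m : ℤ, Rz X p z' A' ∧ z' - A' = a + (q : ℤ) ^ k * m := by
  have hqi : Prime (q : ℤ) := Nat.prime_iff_prime_int.mp hq
  have hcop : IsCoprime (z - A) ((q : ℤ) ^ k) :=
    ((Prime.coprime_iff_not_dvd hqi).mpr hu).symm.pow_right
  obtain ⟨b, c, hbc⟩ := hcop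
  have hcop2 : Nat.Coprime (q ^ k) p := Nat.Coprime.pow_left k
    ((Nat.coprime_primes hq hp.out).mpr hqp)
  have hpos : 0 < q ^ k := pow_pos hq.pos k
  obtain ⟨r, hr⟩ : ∃ r : ℕ, ∃ e : ℤ, (r : ℤ) = a * b + (q : ℤ) ^ k * e := by
    have h1 : 0 ≤ (a * b) % ((q ^ k : ℕ) : ℤ) := Int.emod_nonneg _ (by exact_mod_cast hpos.ne')
    refine ⟨((a * b) % ((q ^ k : ℕ) : ℤ)).toNat, -((a * b) / ((q ^ k : ℕ) : ℤ)), ?_⟩
    rw [Int.toNat_of_nonneg h1]
    have h2 := Int.emod_add_mul_ediv (a * b) ((q ^ k : ℕ) : ℤ)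
    push_cast at h2 ⊢
    linear_combination h2
  obtain ⟨e, he⟩ := hr
  obtain ⟨n, hn1, hn2⟩ := Nat.chineseRemainder hcop2 r 1
  have hpn : ¬ p ∣ n := by
    intro h1
    have h2 : n % p = 1 % p := hn2
    rw [Nat.mod_eq_zero_of_dvd h1, Nat.mod_eq_of_lt hp.out.one_lt] at h2
    exact absurd h2 (by norm_num)
  have hn0 : n ≠ 0 := by
    rintro rfl
    exact hpn (dvd_zero p)
  have h3 : ((q ^ k : ℕ) : ℤ) ∣ (r : ℤ) - n := (Nat.modEq_iff_dvd.mp hn1)
  obtain ⟨f, hf⟩ := h3
  refine ⟨n * z, n * A, (e - f) * (z - A) - a * c, h.smul hX hn0 hpn, ?_⟩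
  push_cast at hf
  have h4 : (n : ℤ) = a * b + (q : ℤ) ^ k * e - (q : ℤ) ^ k * f := by
    linear_combination he - hf
  have h5 : (n : ℤ) * z - n * A = n * (z - A) := by ring
  rw [h5, h4]
  linear_combination a * hbc

omit hX in
/-- all residues modulo powers of `p` -/
theorem res_self_aux {z A : ℤ} (hu : ¬ (p : ℤ) ∣ z - A) (a : ℤ) (k : ℕ) :
    ∃ n : ℕ, n ≠ 0 ∧ ¬ p ∣ n ∧ ∃ m : ℤ, (n : ℤ) ^ p * (z ^ p - A ^ p) - n * (z - A) =
      p * (a + (p : ℤ) ^ k * m) := by
  have hpi : Prime (p : ℤ) := Nat.prime_iff_prime_int.mp hp.out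
  induction k with
  | zero =>
    refine ⟨1, one_ne_zero, hp.out.not_dvd_one, ?_⟩
    have h1 : ∀ x : ℤ, (p : ℤ) ∣ x ^ p - x := by
      intro x
      have h2 := ZMod.pow_card (x : ZMod p)
      rw [← ZMod.intCast_zmod_eq_zero_iff_dvd] 
      push_cast
      rw [h2, sub_self]
    obtain ⟨s, hs⟩ := h1 z
    obtain ⟨t, ht⟩ := h1 A
    refine ⟨s - t - a, ?_⟩
    push_cast
    linear_combination hs - ht
  | succ k ih =>
    obtain ⟨n, hn0, hpn, m, hm⟩ := ih
    have hcop : IsCoprime (z - A) (p : ℤ) := ((Prime.coprime_iff_not_dvd hpi).mpr hu).symm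
    obtain ⟨b, c, hbc⟩ := hcop
    -- `t` with `t (z - A) ≡ m` modulo `p`
    obtain ⟨t, e, ht⟩ : ∃ t : ℕ, ∃ e : ℤ, (t : ℤ) = m * b + p * e := by
      have h1 : 0 ≤ (m * b) % (p : ℤ) := Int.emod_nonneg _ hpi.ne_zero
      refine ⟨((m * b) % (p : ℤ)).toNat, -((m * b) / (p : ℤ)), ?_⟩
      rw [Int.toNat_of_nonneg h1]
      have h2 := Int.emod_add_mul_ediv (m * b) (p : ℤ)
      linear_combination h2
    have hdvd : (p : ℤ) ∣ ((n : ℤ) + (p : ℤ) ^ (k + 1) * t) - n := by
      rw [add_sub_cancel_left, pow_succ]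
      exact ⟨(p : ℤ) ^ k * t, by ring⟩
    obtain ⟨M, hM⟩ := pow_sub (q := p) hdvd
    refine ⟨n + p ^ (k + 1) * t, by omega, ?_, ?_⟩
    · intro h1
      apply hpn
      have h2 : p ∣ p ^ (k + 1) * t := Dvd.dvd.mul_right (dvd_pow_self p k.succ_ne_zero) t
      exact (Nat.dvd_add_left h2).mp h1
    · refine ⟨t * M * (z ^ p - A ^ p) - e * (z - A) + m * c, ?_⟩
      push_cast
      have h3 : ((n : ℤ) + (p : ℤ) ^ (k + 1) * t) ^ p =
          (n : ℤ) ^ p + (p : ℤ) ^ (k + 1) * t * (p * M) := by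
        linear_combination hM
      rw [h3]
      have h4 : ((n : ℤ) ^ p + (p : ℤ) ^ (k + 1) * t * (p * M)) * (z ^ p - A ^ p) -
          ((n : ℤ) + (p : ℤ) ^ (k + 1) * t) * (z - A) =
          p * (a + (p : ℤ) ^ k * m) + (p : ℤ) ^ (k + 1) * t * (p * M) * (z ^ p - A ^ p) -
          (p : ℤ) ^ (k + 1) * t * (z - A) := by
        linear_combination hm
      rw [h4]
      have h5 : (t : ℤ) * (z - A) = m - m * c * p + p * e * (z - A) := by
        rw [ht]
        linear_combination m * hbc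
      have h6 : (p : ℤ) ^ (k + 1) * t * (z - A) = (p : ℤ) ^ (k + 1) * (m - m * c * p +
          p * e * (z - A)) := by
        rw [mul_assoc, h5]
      rw [h6]
      ring

theorem res_self (hqp : q = p) {z A : ℤ} (h : Rz X p z A) (hu : ¬ (p : ℤ) ∣ z - A) (k : ℕ)
    (a : ℤ) : ∃ z' A' m : ℤ, Rz X p z' A' ∧ z' - A' = a + (p : ℤ) ^ k * m := by
  subst hqp
  obtain ⟨n, hn0, hpn, m, hm⟩ := res_self_aux hu a k
  obtain ⟨z', A', c, h', -, hc, -, h1, h2⟩ := (h.smul hX hn0 hpn).wr hX hp.out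
  refine ⟨z', A', m, h', ?_⟩
  have hc' := hc rfl
  subst hc'
  have h0 : (q : ℤ) ≠ 0 := by exact_mod_cast hp.out.ne_zero
  apply mul_left_cancel₀ h0
  rw [← hm]
  rw [mul_pow] at h1 h2
  linear_combination h1 - h2

/-- **If the conjecture fails for one group, the error term takes all residues modulo all prime
powers.** -/
theorem residues (hq : q.Prime) {z A : ℤ} (h : Rz X p z A) (hne : z ≠ A) (k : ℕ) (a : ℤ) :
    ∃ z' A' m : ℤ, Rz X p z' A' ∧ z' - A' = a + (q : ℤ) ^ k * m := by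
  obtain ⟨z', A', h', hu⟩ := unit hX hq h hne
  by_cases hqp : q = p
  · rw [hqp] at hu ⊢
    exact res_self hX hqp h' hu k a
  · exact res_ne hX hq hqp h' hu k a

omit hX in
/-- the error term -/
theorem err_eq (G : Type) [Group G] [Finite G] :
    chi2 p G - ((Nat.card (ConjClasses G) : ℚ) - (numDefectZero p G : ℚ)) =
      (((numDefectZero p G : ℤ) - altK p G : ℤ) : ℚ) := by
  have h1 := Pool.Agent.H93.KR.DD_chi (p := p) G
  rw [Pool.Agent.H93.KR.DD_eq] at h1
  unfold Pool.Agent.R674.Ce.defK at h1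
  rw [AK_altK, DK_eq] at h1
  have h0 : (Nat.card G : ℚ) ≠ 0 := by exact_mod_cast Nat.card_pos.ne'
  apply mul_left_cancel₀ h0
  rw [← h1]
  push_cast
  ring

end Pool.Agent.H93.WR
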