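import Pool.Agent.H93.WR.Cyc

/-!
# Wreath products with cyclic groups: the twisted sums
-/

set_option autoImplicit false
set_option linter.unusedSectionVars false
set_option linter.style.haveILetI false

open scoped Classical BigOperators

noncomputable section

namespace Pool.Agent.H93.WR

open Pool.Agent.Y63.KR
open Pool.Agent.H93.KR
open Pool.Agent.Y63.AWC (numDefectZero)
open Pool.Agent.R674.Ce (AK DK AK_eq AK_congr DK_congr AK_formula DK_formula)
open Pool.Agent.Q90.WR (kap altK card_mul_altK)

theorem AK_altK (p : ℕ) (G : Type) [Group G] : AK p G = (Nat.card G : ℤ) * altK p G := rfl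

theorem AA_eq {p : ℕ} (G : Type) [Group G] [Finite G] :
    AA p G = (AK p G : ℚ) := by
  haveI : Fintype (Ch p G) := Fintype.ofFinite _
  rw [AK_eq]
  unfold AA CS
  rw [finsum_eq_sum_of_fintype, finsum_eq_sum_of_fintype, Int.cast_sum]
  refine Finset.sum_congr rfl fun σ _ => ?_
  simp only
  rw [Pool.Agent.R674.Ce.cpr_eq, kk_eq]
  push_cast
  rfl

variable {l : ℕ} [NeZero l] {G : Type} [Group G] [Fintype G]

theorem sum_x (a : ZMod l → G) (w : G → ℤ) :
    ∑ x : ZMod l → G, (if ∀ i, x i = a i * x (i - 1) * (a i)⁻¹ then w (x 0) else 0) =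
      ∑ g : G, if g * U a l = U a l * g then w g else 0 := by
  rw [← Finset.sum_filter, ← Finset.sum_filter]
  refine Finset.sum_bij' (fun x _ => x 0) (fun g _ => fun i => U a i.val * g * (U a i.val)⁻¹)
    ?_ ?_ ?_ ?_ ?_
  · intro x hx
    have hx' := (Finset.mem_filter.mp hx).2
    rw [Finset.mem_filter]
    refine ⟨Finset.mem_univ _, ?_⟩
    have h := seq_last (act := fun g z : G => g * z * g⁻¹) (fun z => by group)
      (fun g h z => by group) hx'
    rw [mul_inv_eq_iff_eq_mul] at h
    exact h.symm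
  · intro g hg
    have hg' := (Finset.mem_filter.mp hg).2
    rw [Finset.mem_filter]
    refine ⟨Finset.mem_univ _, ?_⟩
    intro i
    refine seq_mk (act := fun g z : G => g * z * g⁻¹) (fun z => by group)
      (fun g h z => by group) ?_ i
    rw [mul_inv_eq_iff_eq_mul]
    exact hg'.symm
  · intro x hx
    have hx' := (Finset.mem_filter.mp hx).2
    funext i
    have h := seq_eq (act := fun g z : G => g * z * g⁻¹) (fun z => by group)
      (fun g h z => by group) hx' i.val
    rw [ZMod.natCast_zmod_val] at h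
    exact h.symm
  · intro g _
    simp only [ZMod.val_zero, U_zero, one_mul, inv_one, mul_one]
  · intro x _
    rfl

/-- changing the coordinate `0` -/
def chg (g : G) : (ZMod l → G) ≃ (ZMod l → G) where
  toFun a i := if i = 0 then g * a 0 else a i
  invFun a i := if i = 0 then g⁻¹ * a 0 else a i
  left_inv a := by
    funext i
    by_cases h : i = 0 <;> simp [h]
  right_inv a := by
    funext i
    by_cases h : i = 0 <;> simp [h]

theorem U_chg (g : G) (a : ZMod l → G) : U (chg g a) l = g * U a l := by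
  have h0 : l ≠ 0 := NeZero.ne l
  have key : ∀ n : ℕ, n < l → U (chg g a) n = U a n := by
    intro n
    induction n with
    | zero => exact fun _ => rfl
    | succ n ih =>
      intro hn
      rw [U_succ, U_succ, ih (by omega)]
      congr 1
      change (if ((n + 1 : ℕ) : ZMod l) = 0 then g * a 0 else a ((n + 1 : ℕ) : ZMod l)) = _
      rw [if_neg]
      rw [ZMod.natCast_eq_zero_iff]
      intro h
      exact absurd (Nat.le_of_dvd (by omega) h) (by omega)
  obtain ⟨m, hm⟩ := Nat.exists_eq_succ_of_ne_zero h0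
  have h1 : ∀ b : ZMod l → G, U b l = b 0 * U b m := by
    intro b
    have h2 : U b l = U b (m + 1) := congrArg (U b) hm
    have h3 : ((m + 1 : ℕ) : ZMod l) = 0 := by
      rw [ZMod.natCast_eq_zero_iff, hm]
    rw [h2, U_succ, h3]
  rw [h1, h1, key m (by omega)]
  change (if (0 : ZMod l) = 0 then g * a 0 else a 0) * U a m = _
  rw [if_pos rfl, mul_assoc]

theorem sum_a (F : G → ℤ) : (Nat.card G : ℤ) * ∑ a : ZMod l → G, F (U a l) =
    (Nat.card (ZMod l → G) : ℤ) * ∑ g : G, F g := by
  have h1 : ∀ g : G, ∑ a : ZMod l → G, F (U a l) = ∑ a : ZMod l → G, F (g * U a l) := by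
    intro g
    rw [← Equiv.sum_comp (chg g) (fun a : ZMod l → G => F (U a l))]
    exact Finset.sum_congr rfl fun a _ => by rw [U_chg]
  have h2 : (Nat.card G : ℤ) * ∑ a : ZMod l → G, F (U a l) =
      ∑ g : G, ∑ a : ZMod l → G, F (g * U a l) := by
    rw [← Finset.sum_congr rfl fun g _ => h1 g, Finset.sum_const, Finset.card_univ, nsmul_eq_mul,
      Nat.card_eq_fintype_card]
  rw [h2, Finset.sum_comm]
  have h3 : ∀ a : ZMod l → G, ∑ g : G, F (g * U a l) = ∑ g : G, F g :=
    fun a => Equiv.sum_comp (Equiv.mulRight (U a l)) F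
  rw [Finset.sum_congr rfl fun a _ => h3 a, Finset.sum_const, Finset.card_univ, nsmul_eq_mul,
    Nat.card_eq_fintype_card]

variable {p : ℕ} [hp : Fact p.Prime]

theorem finite_wrc : Finite (Wrc l G) := Finite.of_equiv _ SemidirectProduct.equivProd.symm

/-- the twisted sum -/
theorem tw_sum (hpl : ¬ p ∣ l) :
    twSum p (pr l G).ker (⟨1, gen l⟩ : Wrc l G) =
      (Nat.card (ZMod l → G) : ℤ) * altK p G := by
  haveI : Finite (Wrc l G) := finite_wrc
  set PS := {q : Wrc l G × Wrc l G // q.1 ∈ (pr l G).ker ∧ q.2 * (⟨1, gen l⟩ : Wrc l G)⁻¹ ∈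
    (pr l G).ker ∧ q.1 * q.2 = q.2 * q.1} with hPS
  have hmem : ∀ y : Wrc l G, y ∈ (pr l G).ker ↔ y.right = 1 := fun y => Iff.rfl
  let e : {t : (ZMod l → G) × (ZMod l → G) // ∀ i, t.2 i = t.1 i * t.2 (i - 1) * (t.1 i)⁻¹} ≃ PS :=
    { toFun := fun t => ⟨(em l G t.1.2, ⟨t.1.1, gen l⟩), by
        rw [hmem]
        exact SemidirectProduct.right_inl _, by
        rw [hmem, SemidirectProduct.mul_right, SemidirectProduct.inv_right]
        exact mul_inv_cancel _, (comm_iff _ _).mpr t.2⟩
      invFun := fun q => ⟨(q.1.2.left, q.1.1.left), by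
        have h1 : em l G q.1.1.left = q.1.1 := by
          refine SemidirectProduct.ext rfl ?_
          exact ((hmem _).mp q.2.1).symm
        have h2 : (⟨q.1.2.left, gen l⟩ : Wrc l G) = q.1.2 := by
          refine SemidirectProduct.ext rfl ?_
          have h3 := (hmem _).mp q.2.2.1
          rw [SemidirectProduct.mul_right, SemidirectProduct.inv_right, mul_inv_eq_one] at h3
          exact h3.symm
        refine (comm_iff _ _).mp ?_
        rw [h1, h2]
        exact q.2.2.2⟩
      left_inv := fun t => rfl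
      right_inv := fun q => by
        apply Subtype.ext
        refine Prod.ext ?_ ?_
        · refine SemidirectProduct.ext rfl ?_
          exact ((hmem _).mp q.2.1).symm
        · refine SemidirectProduct.ext rfl ?_
          have h3 := (hmem _).mp q.2.2.1
          rw [SemidirectProduct.mul_right, SemidirectProduct.inv_right, mul_inv_eq_one] at h3
          exact h3.symm }
  haveI : Fintype PS := Fintype.ofFinite _
  have h1 : twSum p (pr l G).ker (⟨1, gen l⟩ : Wrc l G) =
      ∑ t : {t : (ZMod l → G) × (ZMod l → G) //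
        ∀ i, t.2 i = t.1 i * t.2 (i - 1) * (t.1 i)⁻¹}, W p ({t.1.2 0, U t.1.1 l} : Set G) := by
    unfold twSum
    rw [finsum_eq_sum_of_fintype]
    symm
    refine Fintype.sum_equiv e _ _ fun t => ?_
    rw [← W_shift hpl t.2, ← W_eq]
    rfl
  have h2 : twSum p (pr l G).ker (⟨1, gen l⟩ : Wrc l G) =
      ∑ a : ZMod l → G, ∑ x : ZMod l → G,
        if ∀ i, x i = a i * x (i - 1) * (a i)⁻¹ then W p ({x 0, U a l} : Set G) else 0 := by
    rw [h1, ← Fintype.sum_prod_type (f := fun t : (ZMod l → G) × (ZMod l → G) =>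
      if ∀ i, t.2 i = t.1 i * t.2 (i - 1) * (t.1 i)⁻¹ then
        W p ({t.2 0, U t.1 l} : Set G) else 0), ← Finset.sum_filter]
    exact (Finset.sum_subtype (Finset.univ.filter fun t : (ZMod l → G) × (ZMod l → G) =>
      ∀ i, t.2 i = t.1 i * t.2 (i - 1) * (t.1 i)⁻¹) (fun t => by simp)
      (fun t : (ZMod l → G) × (ZMod l → G) => W p ({t.2 0, U t.1 l} : Set G))).symm
  have h3 : twSum p (pr l G).ker (⟨1, gen l⟩ : Wrc l G) =
      ∑ a : ZMod l → G, (fun h : G => ∑ g : G, if g * h = h * g then
        W p ({g, h} : Set G) else 0) (U a l) := by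
    rw [h2]
    exact Finset.sum_congr rfl fun a _ => sum_x a (fun g => W p ({g, U a l} : Set G))
  have h4 := sum_a (l := l) (fun h : G => ∑ g : G, if g * h = h * g then
        W p ({g, h} : Set G) else 0)
  rw [← h3] at h4
  have h5 : ∑ h : G, (fun h : G => ∑ g : G, if g * h = h * g then
        W p ({g, h} : Set G) else 0) h = kap p G := by
    unfold kap
    rw [Finset.sum_comm]
  rw [h5, ← card_mul_altK] at h4
  have h0 : (Nat.card G : ℤ) ≠ 0 := by exact_mod_cast Nat.card_pos.ne'
  apply mul_left_cancel₀ h0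
  rw [h4]
  ring

/-- the base group -/
def bas (l : ℕ) (G : Type) [Group G] : (ZMod l → G) ≃* (pr l G).ker :=
  (MonoidHom.ofInjective em_inj).trans (MulEquiv.subgroupCongr em_range)

theorem bas_coe (x : ZMod l → G) : ((bas l G x : (pr l G).ker) : Wrc l G) = em l G x := rfl

theorem bas_symm (y : (pr l G).ker) : (bas l G).symm y = (y : Wrc l G).left := by
  obtain ⟨x, rfl⟩ := (bas l G).surjective y
  rw [MulEquiv.symm_apply_apply, bas_coe]
  rfl

theorem card_base : Nat.card (pr l G).ker = Nat.card (ZMod l → G) :=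
  (Nat.card_congr (bas l G).toEquiv).symm

end Pool.Agent.H93.WR
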