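import Pool.Agent.H93.WR.Form

/-!
# Wreath products with cyclic groups of prime order: the two formulas
-/

set_option autoImplicit false
set_option linter.unusedSectionVars false
set_option linter.style.haveILetI false

open scoped Classical BigOperators

noncomputable section

namespace Pool.Agent.H93.WR

open Pool.Agent.Y63.KR
open Pool.Agent.H93.KR
open Pool.Agent.Helper884.IC (IsIrrChar mem_Irr)
open Pool.Agent.Y63.AWC (numDefectZero numDefectZero_congr)
open Pool.Agent.R674.Ce (AK DK AK_eq AK_congr DK_congr AK_formula DK_formula)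
open Pool.Agent.Q90.WR (kap altK card_mul_altK DefZero card_transport irr_comp_iff)

theorem card_wrc (l : ℕ) [NeZero l] (G : Type) [Group G] [Finite G] :
    Nat.card (Wrc l G) = l * Nat.card (ZMod l → G) := by
  rw [Nat.card_congr SemidirectProduct.equivProd, Nat.card_prod,
    Nat.card_congr Multiplicative.toAdd, Nat.card_zmod, mul_comm]

theorem DK_eq (p : ℕ) (G : Type) [Group G] :
    DK p G = (Nat.card G : ℤ) * (numDefectZero p G : ℤ) := rfl

variable {G : Type} [Group G] [Fintype G] {p : ℕ} [hp : Fact p.Prime]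

section ne

variable {q : ℕ} [hq : Fact q.Prime]

theorem map_top_pr : (⊤ : Subgroup (Wrc q G)).map (pr q G) = ⊤ :=
  Subgroup.map_top_of_surjective _ SemidirectProduct.rightHom_surjective

theorem map_ker_pr : (pr q G).ker.map (pr q G) = ⊥ := by
  rw [eq_bot_iff]
  rintro _ ⟨x, hx, rfl⟩
  exact hx

theorem npq (hpq : p ≠ q) : ¬ p ∣ q := fun h =>
  hpq ((Nat.prime_dvd_prime_iff_eq hp.out hq.out).mp h)

/-- the formula for the alternating sum, for `q ≠ p` -/
theorem altK_wrc (hpq : p ≠ q) :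
    (q : ℤ) * altK p (Wrc q G) = altK p G ^ q + ((q : ℤ) ^ 2 - 1) * altK p G := by
  haveI : Finite (Wrc q G) := finite_wrc
  haveI : Fintype (pr q G).ker := Fintype.ofFinite _
  have hpA : ¬ p ∣ Nat.card (Multiplicative (ZMod q)) := by
    rw [Nat.card_congr Multiplicative.toAdd, Nat.card_zmod]
    exact npq hpq
  have h1 := AA_pairs (p := p) (pr q G) hpA ⊤ le_top
  have h2 := AA_pairs (p := p) (pr q G) hpA (pr q G).ker le_rfl
  rw [map_ker_pr, sum_bot] at h2
  rw [map_top_pr] at h1
  simp only [Subgroup.mem_top, and_self, if_true] at h1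
  rw [sum_top _ (fun a b => TT_gcd (p := p) (pr q G) (gen q) a b)
    (fun k hk => TT_one_pow (p := p) (pr q G) (gen q) k hk), ← h2] at h1
  have h3 : TT (pr q G) p 1 (gen q) = (twSum p (pr q G).ker (⟨1, gen q⟩ : Wrc q G) : ℚ) :=
    TT_eq (p := p) (pr q G) (⟨1, gen q⟩ : Wrc q G)
  rw [h3, tw_sum (npq hpq), AA_eq, AA_eq, AK_congr (bas q G).symm, AK_congr Subgroup.topEquiv,
    AK_altK, AK_altK, altK_pi, card_wrc, Finset.prod_const, Finset.card_univ, ZMod.card] at h1
  have h0 : (Nat.card (ZMod q → G) : ℤ) ≠ 0 := by exact_mod_cast Nat.card_pos.ne'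
  apply mul_left_cancel₀ h0
  have h4 : ((((q * Nat.card (ZMod q → G) : ℕ) : ℤ) * altK p (Wrc q G) : ℤ) : ℚ) =
      (((Nat.card (ZMod q → G) : ℤ) * altK p G ^ q +
        ((q : ℤ) ^ 2 - 1) * ((Nat.card (ZMod q → G) : ℤ) * altK p G) : ℤ) : ℚ) := by
    rw [h1]
    push_cast
    ring
  have h5 := Int.cast_injective (α := ℚ) h4
  push_cast at h5
  linear_combination h5

/-- the formula for the number of characters of defect zero, for `q ≠ p` -/
theorem num_wrc (hpq : p ≠ q) :
    (q : ℤ) * (numDefectZero p (Wrc q G) : ℤ) =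
      (numDefectZero p G : ℤ) ^ q + ((q : ℤ) ^ 2 - 1) * (numDefectZero p G : ℤ) := by
  haveI : Finite (Wrc q G) := finite_wrc
  haveI : Fintype (pr q G).ker := Fintype.ofFinite _
  have hpA : ¬ p ∣ Nat.card (Multiplicative (ZMod q)) := by
    rw [Nat.card_congr Multiplicative.toAdd, Nat.card_zmod]
    exact npq hpq
  have h1 := zz_pairs (p := p) (pr q G) hpA ⊤ le_top
  have h2 := zz_pairs (p := p) (pr q G) hpA (pr q G).ker le_rfl
  rw [map_ker_pr, sum_bot (fun s t => (Nat.card (pr q G).ker : ℚ) * zf (pr q G) p s t)] at h2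
  have h6 : (∑ s : Multiplicative (ZMod q), ∑ t : Multiplicative (ZMod q),
      if s ∈ (⊤ : Subgroup (Multiplicative (ZMod q))) ∧
        t ∈ (⊤ : Subgroup (Multiplicative (ZMod q))) then
        (Nat.card (pr q G).ker : ℚ) * zf (pr q G) p s t else 0) =
      ∑ s : Multiplicative (ZMod q), ∑ t : Multiplicative (ZMod q),
        (Nat.card (pr q G).ker : ℚ) * zf (pr q G) p s t := by
    simp only [Subgroup.mem_top, and_self, if_true]
  rw [map_top_pr, h6, sum_top (fun s t => (Nat.card (pr q G).ker : ℚ) * zf (pr q G) p s t)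
    (fun a b => by rw [zf_gcd]) (fun k hk => by rw [zf_one_pow _ _ k hk]), ← h2, zf_gen,
    zz_eq, zz_eq, numDefectZero_congr (bas q G).symm, numDefectZero_congr Subgroup.topEquiv,
    Nat.card_congr (Subgroup.topEquiv (G := Wrc q G)).toEquiv, card_base, card_wrc,
    numDefectZero_pi, Finset.prod_const, Finset.card_univ, ZMod.card] at h1
  have h0 : (Nat.card (ZMod q → G) : ℤ) ≠ 0 := by exact_mod_cast Nat.card_pos.ne'
  apply mul_left_cancel₀ h0
  have h4 : ((((q * Nat.card (ZMod q → G) : ℕ) : ℤ) * (numDefectZero p (Wrc q G) : ℤ) : ℤ) : ℚ) =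
      (((Nat.card (ZMod q → G) : ℤ) * (numDefectZero p G : ℤ) ^ q +
        ((q : ℤ) ^ 2 - 1) * ((Nat.card (ZMod q → G) : ℤ) * (numDefectZero p G : ℤ)) : ℤ) : ℚ) := by
    push_cast
    push_cast at h1
    rw [h1]
  have h5 := Int.cast_injective (α := ℚ) h4
  push_cast at h5
  linear_combination h5

end ne

section eq

/-- the elements of order dividing `l` over the generator -/
theorem pow_left {l : ℕ} [NeZero l] (a : ZMod l → G) (n : ℕ) :
    ((⟨a, gen l⟩ : Wrc l G) ^ n).left (n : ZMod l) = U a n := by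
  induction n with
  | zero => simp [U_zero]
  | succ n ih =>
    rw [pow_succ', SemidirectProduct.mul_left, U_succ, ← ih]
    have h3 : ((n + 1 : ℕ) : ZMod l) - 1 = (n : ZMod l) := by
      push_cast
      ring
    change a _ * ((⟨a, gen l⟩ : Wrc l G) ^ n).left (((n + 1 : ℕ) : ZMod l) - 1) = _
    rw [h3]

theorem pow_right {l : ℕ} [NeZero l] (a : ZMod l → G) (n : ℕ) :
    ((⟨a, gen l⟩ : Wrc l G) ^ n).right = gen l ^ n := by
  have h : ((⟨a, gen l⟩ : Wrc l G) ^ n).right = pr l G ((⟨a, gen l⟩ : Wrc l G) ^ n) := rfl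
  rw [h, map_pow]
  rfl

theorem conj_gen {l : ℕ} [NeZero l] {a : ZMod l → G} (h : U a l = 1) :
    (⟨a, gen l⟩ : Wrc l G) = em l G (fun i => U a i.val) * (⟨1, gen l⟩ : Wrc l G) *
      (em l G (fun i => U a i.val))⁻¹ := by
  rw [eq_mul_inv_iff_mul_eq]
  refine SemidirectProduct.ext ?_ ?_
  · funext i
    have h1 := seq_mk (act := fun g z : G => g * z) (fun z => one_mul z)
      (fun g h z => mul_assoc g h z) (z₀ := 1) (by rw [mul_one]; exact h) i
    simp only [mul_one] at h1
    simp only [SemidirectProduct.mul_left, SemidirectProduct.left_inl, SemidirectProduct.right_inl,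
      Pi.mul_apply, map_one, Pi.one_apply, mul_one]
    exact h1.symm
  · simp

variable {q : ℕ} [hq : Fact q.Prime]

theorem pow_one_iff (a : ZMod q → G) : (⟨a, gen q⟩ : Wrc q G) ^ q = 1 ↔ U a q = 1 := by
  constructor
  · intro h
    have h1 := pow_left a q
    rw [h] at h1
    exact h1.symm
  · intro h
    rw [conj_gen h, conj_pow]
    have h1 : (⟨1, gen q⟩ : Wrc q G) ^ q = 1 := by
      have h2 : (⟨1, gen q⟩ : Wrc q G) = SemidirectProduct.inr (gen q) := rfl
      rw [h2, ← map_pow, gen_pow, ZMod.natCast_self]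
      exact map_one _
    rw [h1, mul_one, mul_inv_cancel]

theorem order_gen {a : ZMod q → G} (h : U a q = 1) : orderOf (⟨a, gen q⟩ : Wrc q G) = q := by
  refine orderOf_eq_prime ((pow_one_iff a).mpr h) fun h1 => ?_
  have h2 : gen q = 1 := congrArg SemidirectProduct.right h1
  have h3 := orderOf_gen (q := q)
  rw [h2, orderOf_one] at h3
  exact hq.out.one_lt.ne h3

/-- the conditions on the complements -/
def Cp (q : ℕ) (G : Type) [Group G] (R : Subgroup (Wrc q G)) : Prop :=
  IsPGroup q R ∧ (pr q G).ker ⊔ R = ⊤ ∧ (pr q G).ker ⊓ R = ⊥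

theorem cp_of {a : ZMod q → G} (h : U a q = 1) :
    Cp q G (Subgroup.zpowers (⟨a, gen q⟩ : Wrc q G)) := by
  refine ⟨?_, ?_, ?_⟩
  · refine IsPGroup.of_card (n := 1) ?_
    rw [Nat.card_zpowers, order_gen h, pow_one]
  · rw [eq_top_iff]
    intro y _
    have h1 : y.right = gen q ^ (y.right.toAdd).val := by
      rw [gen_pow, ZMod.natCast_zmod_val]
      rfl
    set n := (y.right.toAdd).val with hn
    have h2 : y * ((⟨a, gen q⟩ : Wrc q G) ^ n)⁻¹ ∈ (pr q G).ker := by
      rw [MonoidHom.mem_ker, map_mul, map_inv, mul_inv_eq_one]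
      change y.right = ((⟨a, gen q⟩ : Wrc q G) ^ n).right
      rw [pow_right, ← h1]
    have h3 : y = y * ((⟨a, gen q⟩ : Wrc q G) ^ n)⁻¹ * (⟨a, gen q⟩ : Wrc q G) ^ n := by group
    rw [h3]
    exact Subgroup.mul_mem_sup h2 (Subgroup.pow_mem _ (Subgroup.mem_zpowers _) _)
  · rw [eq_bot_iff]
    rintro y ⟨h1, h2⟩
    obtain ⟨n, rfl⟩ := (mem_powers_iff_mem_zpowers.mpr h2)
    simp only at h1 ⊢
    have h3 : ((⟨a, gen q⟩ : Wrc q G) ^ n).right = 1 := h1
    rw [pow_right] at h3
    have h4 := orderOf_dvd_of_pow_eq_one h3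
    rw [orderOf_gen] at h4
    rw [Subgroup.mem_bot, ← orderOf_dvd_iff_pow_eq_one, order_gen h]
    exact h4

theorem exists_of {R : Subgroup (Wrc q G)} (h : Cp q G R) :
    ∃ a : ZMod q → G, U a q = 1 ∧ Subgroup.zpowers (⟨a, gen q⟩ : Wrc q G) = R := by
  haveI : Finite (Wrc q G) := finite_wrc
  obtain ⟨h1, h2, h3⟩ := h
  have h4 : (⟨1, gen q⟩ : Wrc q G) ∈ (pr q G).ker ⊔ R := by rw [h2]; trivial
  rw [Subgroup.mem_sup_of_normal_left] at h4
  obtain ⟨x, hx, y, hy, hxy⟩ := h4
  have h5 : y.right = gen q := by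
    have h6 := congrArg (pr q G) hxy
    rw [map_mul, MonoidHom.mem_ker.mp hx, one_mul] at h6
    exact h6
  have h6 : y = (⟨y.left, gen q⟩ : Wrc q G) := SemidirectProduct.ext rfl h5
  have h7 : y ^ q = 1 := by
    have h8 : y ^ q ∈ (pr q G).ker ⊓ R := by
      refine ⟨?_, R.pow_mem hy q⟩
      change (y ^ q).right = 1
      rw [h6, pow_right, gen_pow, ZMod.natCast_self]
      rfl
    rw [h3] at h8
    exact h8
  have h8 : U y.left q = 1 := by
    rw [← pow_one_iff, ← h6]
    exact h7
  refine ⟨y.left, h8, ?_⟩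
  rw [← h6]
  have h9 : Subgroup.zpowers y ≤ R := by
    rw [Subgroup.zpowers_le]
    exact hy
  refine Subgroup.eq_of_le_of_card_ge h9 ?_
  rw [Nat.card_zpowers, h6, order_gen h8]
  have h10 : Function.Injective ((pr q G).comp R.subtype) := by
    rw [injective_iff_map_eq_one]
    intro z hz
    have h11 : (z : Wrc q G) ∈ (pr q G).ker ⊓ R := ⟨hz, z.2⟩
    rw [h3] at h11
    exact Subtype.ext h11
  have h11 := Nat.card_le_card_of_injective _ h10
  rwa [Nat.card_congr (Multiplicative.toAdd (α := ZMod q)), Nat.card_zmod] at h11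

theorem zp_inj {a b : ZMod q → G} (ha : U a q = 1)
    (h : Subgroup.zpowers (⟨a, gen q⟩ : Wrc q G) = Subgroup.zpowers (⟨b, gen q⟩ : Wrc q G)) :
    a = b := by
  have h1 : (⟨b, gen q⟩ : Wrc q G) ∈ Subgroup.zpowers (⟨a, gen q⟩ : Wrc q G) := by
    rw [h]
    exact Subgroup.mem_zpowers _
  obtain ⟨n, hn⟩ := (mem_powers_iff_mem_zpowers.mpr h1)
  simp only at hn
  have h2 : gen q ^ n = gen q := by
    rw [← pow_right a n, hn]
  have h3 : gen q ^ n = gen q ^ 1 := by rw [h2, pow_one]
  have h4 := pow_eq_pow_iff_modEq.mp h3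
  rw [orderOf_gen] at h4
  have h5 : (⟨a, gen q⟩ : Wrc q G) ^ n = (⟨a, gen q⟩ : Wrc q G) ^ 1 := by
    rw [pow_eq_pow_iff_modEq, order_gen ha]
    exact h4
  rw [hn, pow_one] at h5
  exact (congrArg SemidirectProduct.left h5).symm

/-- the centraliser of a complement in the base group -/
theorem cent_iso {a : ZMod q → G} (h : U a q = 1) :
    Nonempty (((pr q G).ker ⊓ Subgroup.centralizer
      ((Subgroup.zpowers (⟨a, gen q⟩ : Wrc q G) : Subgroup (Wrc q G)) : Set (Wrc q G)) :
        Subgroup (Wrc q G)) ≃* G) := by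
  set C := ((pr q G).ker ⊓ Subgroup.centralizer
      ((Subgroup.zpowers (⟨a, gen q⟩ : Wrc q G) : Subgroup (Wrc q G)) : Set (Wrc q G)) :
        Subgroup (Wrc q G)) with hC
  have hmem : ∀ x : ZMod q → G, em q G x ∈ C ↔ ∀ i, x i = a i * x (i - 1) * (a i)⁻¹ := by
    intro x
    rw [← comm_iff, hC, Subgroup.mem_inf]
    constructor
    · rintro ⟨-, h2⟩
      exact (Subgroup.mem_centralizer_iff.mp h2 _ (Subgroup.mem_zpowers _)).symm
    · intro h2
      have h3 : em q G x ∈ (pr q G).ker := by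
        rw [← em_range]
        exact ⟨x, rfl⟩
      refine ⟨h3, ?_⟩
      rw [Subgroup.mem_centralizer_iff]
      rintro _ ⟨n, rfl⟩
      have h4 : Commute (em q G x) (⟨a, gen q⟩ : Wrc q G) := h2
      exact (h4.zpow_right n).eq.symm
  have hel : ∀ y : C, em q G (y : Wrc q G).left = y := by
    intro y
    refine SemidirectProduct.ext rfl ?_
    exact (show (y : Wrc q G).right = 1 from y.2.1).symm
  let f : C →* G :=
    { toFun := fun y => (y : Wrc q G).left 0
      map_one' := rfl
      map_mul' := by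
        intro y z
        have h1 : (y : Wrc q G) * (z : Wrc q G) =
            em q G ((y : Wrc q G).left * (z : Wrc q G).left) := by
          rw [map_mul, hel, hel]
        change ((y : Wrc q G) * (z : Wrc q G)).left 0 = _
        rw [h1]
        rfl }
  have hseq : ∀ y : C, ∀ i : ZMod q, (y : Wrc q G).left i =
      U a i.val * (y : Wrc q G).left 0 * (U a i.val)⁻¹ := by
    intro y i
    have h2 : ∀ i, (y : Wrc q G).left i = a i * (y : Wrc q G).left (i - 1) * (a i)⁻¹ := by
      rw [← hmem, hel]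
      exact y.2
    have h3 := seq_eq (act := fun g z : G => g * z * g⁻¹) (fun z => by group)
      (fun g h z => by group) h2 i.val
    rw [ZMod.natCast_zmod_val] at h3
    exact h3
  refine ⟨MulEquiv.ofBijective f ⟨?_, ?_⟩⟩
  · intro y z hyz
    have h1 : (y : Wrc q G).left 0 = (z : Wrc q G).left 0 := hyz
    apply Subtype.ext
    rw [← hel y, ← hel z]
    congr 1
    funext i
    rw [hseq y i, hseq z i, h1]
  · intro g
    have h2 : ∀ i : ZMod q, (fun i : ZMod q => U a i.val * g * (U a i.val)⁻¹) i =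
        a i * (fun i : ZMod q => U a i.val * g * (U a i.val)⁻¹) (i - 1) * (a i)⁻¹ := by
      intro i
      refine seq_mk (act := fun g z : G => g * z * g⁻¹) (fun z => by group)
        (fun g h z => by group) ?_ i
      rw [h]
      group
    refine ⟨⟨em q G (fun i => U a i.val * g * (U a i.val)⁻¹), (hmem _).mpr h2⟩, ?_⟩
    change U a (0 : ZMod q).val * g * (U a (0 : ZMod q).val)⁻¹ = g
    rw [ZMod.val_zero, U_zero]
    group

/-- the sum over the complements -/
theorem sum_cpl (F : Subgroup (Wrc q G) → ℤ) (c : ℤ)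
    (hF : ∀ a : ZMod q → G, U a q = 1 → F (Subgroup.zpowers (⟨a, gen q⟩ : Wrc q G)) = c) :
    (Nat.card G : ℤ) * ∑ᶠ R : Subgroup (Wrc q G), (if Cp q G R then F R else 0) =
      (Nat.card (ZMod q → G) : ℤ) * c := by
  haveI : Finite (Wrc q G) := finite_wrc
  haveI : Fintype (Subgroup (Wrc q G)) := Fintype.ofFinite _
  have h1 : ∑ᶠ R : Subgroup (Wrc q G), (if Cp q G R then F R else 0) =
      ∑ a : ZMod q → G, if U a q = 1 then c else 0 := by
    rw [finsum_eq_sum_of_fintype, ← Finset.sum_filter, ← Finset.sum_filter]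
    symm
    refine Finset.sum_bij (fun a _ => Subgroup.zpowers (⟨a, gen q⟩ : Wrc q G)) ?_ ?_ ?_ ?_
    · intro a ha
      exact Finset.mem_filter.mpr ⟨Finset.mem_univ _, cp_of (Finset.mem_filter.mp ha).2⟩
    · intro a ha b _ hab
      exact zp_inj (Finset.mem_filter.mp ha).2 hab
    · intro R hR
      obtain ⟨a, ha, h⟩ := exists_of (Finset.mem_filter.mp hR).2
      exact ⟨a, Finset.mem_filter.mpr ⟨Finset.mem_univ _, ha⟩, h⟩
    · intro a ha
      exact (hF a (Finset.mem_filter.mp ha).2).symm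
  rw [h1, sum_a (fun g : G => if g = 1 then c else 0)]
  simp

theorem index_ker : (pr q G).ker.index = q := by
  rw [Subgroup.index_ker, MonoidHom.range_eq_top.mpr SemidirectProduct.rightHom_surjective,
    Subgroup.card_top, Nat.card_congr (Multiplicative.toAdd (α := ZMod q)), Nat.card_zmod]

/-- the formula for the alternating sum, for `q = p` -/
theorem altK_wrc_self : (q : ℤ) * altK q (Wrc q G) = altK q G ^ q - altK q G := by
  haveI : Finite (Wrc q G) := finite_wrc
  have h1 := AK_formula (p := q) (G := (pr q G).ker) index_ker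
  have h2 := sum_cpl (q := q) (G := G) (fun R => AK q ↥((pr q G).ker ⊓
    Subgroup.centralizer (R : Set (Wrc q G)))) (AK q G) (fun a ha => by
      obtain ⟨e⟩ := cent_iso ha
      exact AK_congr e)
  have h3 : AK q (Wrc q G) = AK q (pr q G).ker - ∑ᶠ R : Subgroup (Wrc q G), (if Cp q G R then
      AK q ↥((pr q G).ker ⊓ Subgroup.centralizer (R : Set (Wrc q G))) else 0) := by
    rw [h1]
    congr 1
    exact finsum_congr fun R => if_congr Iff.rfl rfl rfl
  have h4 : ∑ᶠ R : Subgroup (Wrc q G), (if Cp q G R then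
      AK q ↥((pr q G).ker ⊓ Subgroup.centralizer (R : Set (Wrc q G))) else 0) =
      AK q (pr q G).ker - AK q (Wrc q G) := by
    rw [h3]
    ring
  rw [h4, AK_congr (bas q G).symm, AK_altK, AK_altK, AK_altK, altK_pi, card_wrc,
    Finset.prod_const, Finset.card_univ, ZMod.card] at h2
  have h0 : (Nat.card (ZMod q → G) : ℤ) ≠ 0 := by exact_mod_cast Nat.card_pos.ne'
  have h5 : (Nat.card G : ℤ) ≠ 0 := by exact_mod_cast Nat.card_pos.ne'
  apply mul_left_cancel₀ h0
  apply mul_left_cancel₀ h5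
  push_cast at h2
  linear_combination -h2

/-- the formula for the number of characters of defect zero, for `q = p` -/
theorem num_wrc_self : (q : ℤ) * (numDefectZero q (Wrc q G) : ℤ) =
    (numDefectZero q G : ℤ) ^ q - (numDefectZero q G : ℤ) := by
  haveI : Finite (Wrc q G) := finite_wrc
  have h1 := DK_formula (p := q) (G := (pr q G).ker) index_ker
  have h2 := sum_cpl (q := q) (G := G) (fun R => DK q ↥((pr q G).ker ⊓
    Subgroup.centralizer (R : Set (Wrc q G)))) (DK q G) (fun a ha => by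
      obtain ⟨e⟩ := cent_iso ha
      exact DK_congr e)
  have h3 : DK q (Wrc q G) = DK q (pr q G).ker - ∑ᶠ R : Subgroup (Wrc q G), (if Cp q G R then
      DK q ↥((pr q G).ker ⊓ Subgroup.centralizer (R : Set (Wrc q G))) else 0) := by
    rw [h1]
    congr 1
    exact finsum_congr fun R => if_congr Iff.rfl rfl rfl
  have h4 : ∑ᶠ R : Subgroup (Wrc q G), (if Cp q G R then
      DK q ↥((pr q G).ker ⊓ Subgroup.centralizer (R : Set (Wrc q G))) else 0) =
      DK q (pr q G).ker - DK q (Wrc q G) := by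
    rw [h3]
    ring
  rw [h4, DK_congr (bas q G).symm, DK_eq, DK_eq, DK_eq, numDefectZero_pi, card_wrc,
    Finset.prod_const, Finset.card_univ, ZMod.card] at h2
  have h0 : (Nat.card (ZMod q → G) : ℤ) ≠ 0 := by exact_mod_cast Nat.card_pos.ne'
  have h5 : (Nat.card G : ℤ) ≠ 0 := by exact_mod_cast Nat.card_pos.ne'
  apply mul_left_cancel₀ h0
  apply mul_left_cancel₀ h5
  push_cast at h2
  linear_combination -h2

end eq

end Pool.Agent.H93.WR
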